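import Pool.Agent.H93.SC.Targets
import Pool.Agent.H64.SC.Api

/-!
Additivity and monotonicity of the index (MP_f2954d_ag, modules ADD).
-/

namespace Pool.Agent.H2.SC

open _root_.SC

/-- the sums of T_M9 over a finite set of valuations -/
lemma sum_eq {k K : Type} [Field k] [Field K] [Algebra k K] (g : DV k K → ℤ) (I : DV k K → ℕ)
    (F : Finset (DV k K)) (hF : ∀ v, g v ≠ 0 → I v ≠ 0 → v ∈ F) :
    ∑ᶠ v, g v * (I v : ℤ) = ∑ v ∈ F, g v * (I v : ℤ) := by
  apply finsum_eq_sum_of_support_subset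
  intro v hv
  have h1 : g v * (I v : ℤ) ≠ 0 := hv
  exact hF v (left_ne_zero_of_mul h1) (by exact_mod_cast right_ne_zero_of_mul h1)

theorem add (h : T_M9) : T_ADD := by
  classical
  intro k K J _ _ _ _ _ _ S s t hS hs ht hd
  have hst : (s.mul t).Nz := Sys.mul_nz hs ht
  obtain ⟨f1, e1⟩ := h k K J S s hS hs hd
  obtain ⟨f2, e2⟩ := h k K J S t hS ht hd
  obtain ⟨f3, e3⟩ := h k K J S (s.mul t) hS hst hd
  set F : Finset (DV k K) := f1.toFinset ∪ f2.toFinset ∪ f3.toFinset with hF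
  set I : DV k K → ℕ := fun v => Idx (fun j => v.res (S j)) k with hI
  have a1 := sum_eq (fun v : DV k K => v.mo s) I F (by
    intro v h1 h2
    simp only [hF, Finset.mem_union, Set.Finite.mem_toFinset]
    exact Or.inl (Or.inl ⟨h1, h2⟩))
  have a2 := sum_eq (fun v : DV k K => v.mo t) I F (by
    intro v h1 h2
    simp only [hF, Finset.mem_union, Set.Finite.mem_toFinset]
    exact Or.inl (Or.inr ⟨h1, h2⟩))
  have a3 := sum_eq (fun v : DV k K => v.mo (s.mul t)) I F (by
    intro v h1 h2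
    simp only [hF, Finset.mem_union, Set.Finite.mem_toFinset]
    exact Or.inr ⟨h1, h2⟩)
  have b : ((Idx (Sum.elim (fun _ : Unit => s.mul t) S) k : ℕ) : ℤ) =
      ((Idx (Sum.elim (fun _ : Unit => s) S) k + Idx (Sum.elim (fun _ : Unit => t) S) k : ℕ) : ℤ) := by
    rw [Nat.cast_add, e1, e2, e3, a1, a2, a3, ← neg_add, ← Finset.sum_add_distrib]
    congr 1
    apply Finset.sum_congr rfl
    intro v _
    rw [v.mo_mul hs ht]
    ring
  exact_mod_cast b

theorem mon (h : T_M9) : T_MON := by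
  classical
  intro k K J _ _ _ _ _ _ S s t hS hs ht hd hle
  obtain ⟨f1, e1⟩ := h k K J S s hS hs hd
  obtain ⟨f2, e2⟩ := h k K J S t hS ht hd
  set F : Finset (DV k K) := f1.toFinset ∪ f2.toFinset with hF
  set I : DV k K → ℕ := fun v => Idx (fun j => v.res (S j)) k with hI
  have a1 := sum_eq (fun v : DV k K => v.mo s) I F (by
    intro v h1 h2
    simp only [hF, Finset.mem_union, Set.Finite.mem_toFinset]
    exact Or.inl ⟨h1, h2⟩)
  have a2 := sum_eq (fun v : DV k K => v.mo t) I F (by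
    intro v h1 h2
    simp only [hF, Finset.mem_union, Set.Finite.mem_toFinset]
    exact Or.inr ⟨h1, h2⟩)
  have b : ((Idx (Sum.elim (fun _ : Unit => s) S) k : ℕ) : ℤ) ≤
      ((Idx (Sum.elim (fun _ : Unit => t) S) k : ℕ) : ℤ) := by
    rw [e1, e2, a1, a2, neg_le_neg_iff]
    apply Finset.sum_le_sum
    intro v _
    exact mul_le_mul_of_nonneg_right (hle v) (by positivity)
  exact_mod_cast b

end Pool.Agent.H2.SC
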