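import Pool.Agent.H93.SC.Targets2
import Pool.Agent.H64.SC.Api

/-!
The index of a Gauss extension (MP_f2954d_ag, module C1g).
-/

namespace Pool.Agent.H2.SC

open _root_.SC

section Aux

variable {k K k' L : Type} [Field k] [Field K] [Algebra k K] [Field k'] [Field L]
  [Algebra k' L] [Algebra K L]

/-- an unramified extension: restriction of a system of the small field -/
lemma res_up {v : DV k K} {w : DV k' L} (h : Over v w 1) {φ : v.Res →+* w.Res}
    (hφ : ResCompat v w φ) {T : Sys K} (hT : T.Nz) :
    ∃ u : w.Res, u ≠ 0 ∧ w.res (T.up L) =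
      (letI : Algebra v.Res w.Res := φ.toAlgebra
       ((v.res T).up w.Res).map fun y => u * y) := by
  have hm : w.mo (T.up L) = v.mo T := by
    rw [h.mo_up hT]; simp
  have hg : algebraMap K L (v.unif ^ (v.mo T)) ≠ 0 :=
    (map_ne_zero _).mpr (v.unif_zpow_ne_zero _)
  obtain ⟨u, hu, he⟩ := w.res_eq_scale (T.up L) hg (by
    rw [h.2, v.ord_unif_zpow, hm]; simp)
  refine ⟨u, hu, ?_⟩
  rw [he]
  show (⟨T.r, fun i => u * w.red (algebraMap K L (T.s i) / algebraMap K L (v.unif ^ (v.mo T)))⟩ :
    Sys w.Res) = ⟨T.r, fun i => u * φ (v.red (T.s i * v.unif ^ (- v.mo T)))⟩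
  congr 1
  funext i
  rw [hφ _ (v.res_ord_nonneg T i)]
  congr 2
  rw [map_mul, zpow_neg, map_inv₀, div_eq_mul_inv]

end Aux

theorem c1g (hG2f : T_G2f) (hG2s : T_G2s) (hG3i : T_G3i) : T_C1g := by
  intro k K L J J' _ _ _ _ _ _ _ _ _ S T U v w hS hT hU hind hG
  obtain ⟨φ, hφ, hgen⟩ := hG.gen
  have hover : Over v w 1 := ⟨one_pos, fun x => by rw [hG.ordK]; simp⟩
  let algRR : Algebra v.Res w.Res := φ.toAlgebra
  let algk : Algebra k w.Res :=
    ((algebraMap (kU k U) w.Res).comp (algebraMap k (kU k U))).toAlgebra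
  have tower1 : IsScalarTower k (kU k U) w.Res := IsScalarTower.of_algebraMap_eq fun _ => rfl
  have tower2 : IsScalarTower k v.Res w.Res := by
    apply IsScalarTower.of_algebraMap_eq
    intro c
    exact (hφ.map_base c).symm
  -- independence of the reductions
  let u : Var S → kU k U := fun x => ⟨U x, IntermediateField.subset_adjoin _ _ ⟨x, rfl⟩⟩
  have hu : AlgebraicIndependent k u :=
    AlgebraicIndependent.of_comp (kU k U).val (by exact hind)
  let f : kU k U →ₐ[k] w.Res := IsScalarTower.toAlgHom k (kU k U) w.Res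
  have hfu : ∀ x, f (u x) = w.red (U x) := by
    intro x
    show algebraMap (kU k U) w.Res (u x) = _
    rw [← w.red_algebraMap]
    rfl
  let Ub : Var (fun j => v.res (S j)) → w.Res := fun x => w.red (U x)
  have hub : AlgebraicIndependent k Ub := by
    have h1 := hu.map' (f := f) f.toRingHom.injective
    have h2 : (f ∘ u) = fun x => w.red (U x) := funext hfu
    rw [h2] at h1
    exact h1
  have h1 := (hG3i k v.Res w.Res J J' (fun j => v.res (S j)) (fun j => v.res (T j)) Ub
    (fun j => v.res_nz (hS j)) (fun j => v.res_nz (hT j)) hgen).1 hub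
  -- the families
  have e1 : (fun j => v.res (Sum.elim S T j)) =
      Sum.elim (fun j => v.res (S j)) (fun j => v.res (T j)) := by
    funext j
    cases j <;> rfl
  rw [e1, h1]
  -- the base fields
  have htop : (⊤ : IntermediateField k (kU k U)) = IntermediateField.adjoin k (Set.range u) := by
    apply IntermediateField.map_injective (kU k U).val
    rw [IntermediateField.adjoin_map, ← Set.range_comp, ← AlgHom.fieldRange_eq_map,
      IntermediateField.fieldRange_val]
    rfl
  have hmap : (⊤ : IntermediateField k (kU k U)).map f = kU k Ub := by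
    rw [htop, IntermediateField.adjoin_map, ← Set.range_comp]
    show IntermediateField.adjoin k (Set.range (f ∘ u)) = IntermediateField.adjoin k (Set.range Ub)
    congr 1
    congr 1
    exact funext hfu
  let σ : kU k U ≃ₐ[k] kU k Ub :=
    (IntermediateField.topEquiv.symm.trans (IntermediateField.equivMap ⊤ f)).trans
      (IntermediateField.equivOfEq hmap)
  have hσ : ∀ c : kU k U, algebraMap (kU k U) w.Res c = algebraMap (kU k Ub) w.Res (σ c) := by
    intro c
    rfl
  have h2 := hG2f (kU k U) w.Res (kU k Ub) w.Res J' σ.toRingEquiv (RingEquiv.refl _) hσ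
    (fun j => (v.res (T j)).up w.Res) (fun j => Sys.up_nz _ (v.res_nz (hT j)))
  -- scaling
  choose c hc hc' using fun j => res_up hover hφ (hT j)
  have h3 := hG2s (kU k U) w.Res J' (fun j => (v.res (T j)).up w.Res) c
    (fun j => Sys.up_nz _ (v.res_nz (hT j))) hc
  have e2 : (fun j => w.res ((T j).up L)) =
      fun j => ((v.res (T j)).up w.Res).map fun y => c j * y := funext hc'
  rw [e2, h3, ← h2]
  rfl

end Pool.Agent.H2.SC
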