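import Pool.Agent.H2.SC.Targets

/-!
# MP_04ff0f_nt, WM: the weights
-/

set_option autoImplicit false

open Finset Real

namespace Pool.Agent.H2.SC

/-- the mass of the primes up to `x ^ s` -/
noncomputable def Bm (s : ℝ) : ℝ :=
  min s (1 / 2) + 2 * Real.log (1 / (2 * (1 - max s (1 / 2))))

/-- the primitive -/
noncomputable def Ph (c s : ℝ) : ℝ :=
  Real.log (1 + min s (1 / 2) / c) +
    2 / (1 + c) * Real.log ((c + max s (1 / 2)) / (2 * (1 - max s (1 / 2)) * (c + 1 / 2)))

theorem FW_eq (t : ℝ) (r : ℕ) : FW t r = Ph (2 - t) (t / r) := by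
  unfold FW Ph
  have h1 : (1 : ℝ) + (2 - t) = 3 - t := by ring
  have h2 : (2 : ℝ) - t + 1 / 2 = 5 / 2 - t := by ring
  rw [h1, h2]

theorem Bm_zero : Bm 0 = 0 := by
  unfold Bm
  norm_num

theorem Ph_zero {c : ℝ} (hc : 0 < c) : Ph c 0 = 0 := by
  unfold Ph
  have h1 : max (0 : ℝ) (1 / 2) = 1 / 2 := max_eq_right (by norm_num)
  have h2 : min (0 : ℝ) (1 / 2) = 0 := min_eq_left (by norm_num)
  rw [h1, h2]
  have h3 : (c + 1 / 2) / (2 * (1 - 1 / 2) * (c + 1 / 2)) = 1 := by
    have : (2 : ℝ) * (1 - 1 / 2) = 1 := by norm_num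
    rw [this, one_mul]
    exact div_self (by positivity)
  rw [h3]
  simp

/-- the two logarithmic inequalities -/
theorem log_low {a b : ℝ} (ha : 0 < a) (hab : a ≤ b) : (b - a) / b ≤ Real.log (b / a) := by
  have hb : 0 < b := ha.trans_le hab
  have h1 := Real.one_sub_inv_le_log_of_pos (div_pos hb ha)
  rw [inv_div] at h1
  have h2 : (b - a) / b = 1 - a / b := by field_simp
  rw [h2]
  exact h1

theorem log_upp {a b : ℝ} (ha : 0 < a) (hab : a ≤ b) : Real.log (b / a) ≤ (b - a) / a := by
  have hb : 0 < b := ha.trans_le hab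
  have h1 := Real.log_le_sub_one_of_pos (div_pos hb ha)
  have h2 : (b - a) / a = b / a - 1 := by field_simp
  rw [h2]
  exact h1

theorem Bm_sub {a b : ℝ} (hab : a ≤ b) (hb : b < 1) :
    Bm b - Bm a = (min b (1 / 2) - min a (1 / 2)) +
      2 * Real.log ((1 - max a (1 / 2)) / (1 - max b (1 / 2))) := by
  unfold Bm
  have h1 : 0 < 1 - max b (1 / 2) := by
    rw [sub_pos]
    exact max_lt hb (by norm_num)
  have h2 : 0 < 1 - max a (1 / 2) := by
    have : max a (1 / 2) ≤ max b (1 / 2) := max_le_max_right _ hab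
    linarith
  rw [Real.log_div one_ne_zero (by positivity), Real.log_div one_ne_zero (by positivity),
    Real.log_div h2.ne' h1.ne', Real.log_mul two_ne_zero h1.ne', Real.log_mul two_ne_zero h2.ne']
  ring

theorem Bm_mono {a b : ℝ} (hab : a ≤ b) (hb : b < 1) : 0 ≤ Bm b - Bm a := by
  rw [Bm_sub hab hb]
  have h1 : 0 < 1 - max b (1 / 2) := by
    rw [sub_pos]
    exact max_lt hb (by norm_num)
  have h3 : max a (1 / 2) ≤ max b (1 / 2) := max_le_max_right _ hab
  have h4 : (1 : ℝ) ≤ (1 - max a (1 / 2)) / (1 - max b (1 / 2)) := by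
    rw [le_div_iff₀ h1]
    linarith
  have h5 := Real.log_nonneg h4
  have h6 : min a (1 / 2) ≤ min b (1 / 2) := min_le_min_right _ hab
  linarith

theorem Ph_sub {c a b : ℝ} (hc : 0 < c) (ha : 0 ≤ a) (hab : a ≤ b) (hb : b < 1) :
    Ph c b - Ph c a = Real.log ((c + min b (1 / 2)) / (c + min a (1 / 2))) +
      2 / (1 + c) * (Real.log ((c + max b (1 / 2)) / (c + max a (1 / 2))) +
        Real.log ((1 - max a (1 / 2)) / (1 - max b (1 / 2)))) := by
  unfold Ph
  have h1 : 0 < 1 - max b (1 / 2) := by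
    rw [sub_pos]
    exact max_lt hb (by norm_num)
  have h3 : max a (1 / 2) ≤ max b (1 / 2) := max_le_max_right _ hab
  have h2 : 0 < 1 - max a (1 / 2) := by linarith
  have h4 : 0 ≤ min a (1 / 2) := le_min ha (by norm_num)
  have h5 : 0 ≤ min b (1 / 2) := le_min (ha.trans hab) (by norm_num)
  have h6 : (0 : ℝ) < max a (1 / 2) := lt_of_lt_of_le (by norm_num) (le_max_right _ _)
  have h7 : (0 : ℝ) < max b (1 / 2) := lt_of_lt_of_le (by norm_num) (le_max_right _ _)
  have e1 : ∀ y : ℝ, 0 ≤ y → Real.log (1 + y / c) = Real.log (c + y) - Real.log c := by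
    intro y hy
    rw [← Real.log_div (by positivity) hc.ne']
    congr 1
    field_simp
  have e2 : ∀ m : ℝ, 0 < m → 0 < 1 - m →
      Real.log ((c + m) / (2 * (1 - m) * (c + 1 / 2))) =
        Real.log (c + m) - (Real.log 2 + Real.log (1 - m) + Real.log (c + 1 / 2)) := by
    intro m hm hm1
    rw [Real.log_div (by positivity) (by positivity), Real.log_mul (by positivity) (by positivity),
      Real.log_mul two_ne_zero hm1.ne']
  rw [e1 _ h4, e1 _ h5, e2 _ h6 h2, e2 _ h7 h1, Real.log_div (by positivity) (by positivity),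
    Real.log_div (by positivity) (by positivity), Real.log_div h2.ne' h1.ne']
  ring

/-- one step -/
theorem step {c a b : ℝ} (hc : 0 < c) (ha : 0 ≤ a) (hab : a ≤ b) (hb : b < 1) :
    (Bm b - Bm a) / (c + b) ≤ Ph c b - Ph c a := by
  have hb0 : 0 ≤ b := ha.trans hab
  have hcb : 0 < c + b := by positivity
  rw [Bm_sub hab hb, Ph_sub hc ha hab hb, add_div]
  have h1 : 0 < 1 - max b (1 / 2) := by
    rw [sub_pos]
    exact max_lt hb (by norm_num)
  have h3 : max a (1 / 2) ≤ max b (1 / 2) := max_le_max_right _ hab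
  have h4 : 0 ≤ min a (1 / 2) := le_min ha (by norm_num)
  have h6 : min a (1 / 2) ≤ min b (1 / 2) := min_le_min_right _ hab
  have h7 : (0 : ℝ) < max a (1 / 2) := lt_of_lt_of_le (by norm_num) (le_max_right _ _)
  refine add_le_add ?_ ?_
  · have h8 := log_low (a := c + min a (1 / 2)) (b := c + min b (1 / 2)) (by positivity)
      (by linarith)
    refine le_trans ?_ h8
    have h9 : c + min b (1 / 2) - (c + min a (1 / 2)) = min b (1 / 2) - min a (1 / 2) := by ring
    rw [h9]
    refine div_le_div_of_nonneg_left (by linarith) (by linarith) ?_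
    have : min b (1 / 2) ≤ b := min_le_left _ _
    linarith
  · rcases lt_or_ge b (1 / 2) with hb2 | hb2
    · have e1 : max b (1 / 2) = 1 / 2 := max_eq_right hb2.le
      have e2 : max a (1 / 2) = 1 / 2 := max_eq_right (hab.trans hb2.le)
      rw [e1, e2, div_self (by norm_num), div_self (by positivity)]
      simp
    · have e1 : max b (1 / 2) = b := max_eq_left hb2
      rw [e1] at h1 h3 ⊢
      set a2 := max a (1 / 2) with ha2
      have g1 := log_low (a := c + a2) (b := c + b) (by positivity) (by linarith)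
      have g2 := log_upp (a := 1 - b) (b := 1 - a2) h1 (by linarith)
      rw [div_le_iff₀ hcb] at g1
      rw [le_div_iff₀ h1] at g2
      have g3 : (1 + c) * Real.log ((1 - a2) / (1 - b)) ≤
          (c + b) * (Real.log ((c + b) / (c + a2)) + Real.log ((1 - a2) / (1 - b))) := by
        nlinarith
      rw [div_mul_eq_mul_div, div_le_div_iff₀ hcb (by positivity)]
      nlinarith

/-- summation by parts -/
theorem parts (w b : ℕ → ℝ) (n : ℕ) : ∑ j ∈ range n, (w j - w (j + 1)) * b (j + 1) =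
    ∑ j ∈ range n, w j * (b (j + 1) - b j) + w 0 * b 0 - w n * b n := by
  induction n with
  | zero => simp
  | succ n ih =>
    rw [sum_range_succ, sum_range_succ, ih]
    ring

/-- the weights -/
noncomputable def ww (c θ : ℝ) (J j : ℕ) : ℝ := if j < J then 1 / (c + θ * j / J) else 0

theorem ww_anti {c θ : ℝ} (hc : 0 < c) (hθ : 0 < θ) {J j : ℕ} : 0 ≤ ww c θ J j - ww c θ J (j + 1) := by
  unfold ww
  by_cases h1 : j < J
  · rw [if_pos h1]
    by_cases h2 : j + 1 < J
    · rw [if_pos h2, sub_nonneg]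
      refine one_div_le_one_div_of_le (by positivity) ?_
      have hJ : (0 : ℝ) < J := by exact_mod_cast (by omega : 0 < J)
      push_cast
      have : θ * (j : ℝ) / J ≤ θ * ((j : ℝ) + 1) / J :=
        div_le_div_of_nonneg_right (by nlinarith) hJ.le
      linarith
    · rw [if_neg h2, sub_zero]
      positivity
  · rw [if_neg h1, if_neg (by omega)]
    simp

/-- the Riemann sum -/
theorem riemann {c θ : ℝ} (hc : 0 < c) (hθ : 0 < θ) (hθ1 : θ < 1) {J : ℕ} (hJ : 0 < J) :
    ∑ j ∈ range J, (ww c θ J j - ww c θ J (j + 1)) * Bm (θ * (j + 1 : ℕ) / J) ≤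
      Ph c θ + θ / J / c ^ 2 * Bm θ := by
  have hJ0 : (0 : ℝ) < J := by exact_mod_cast hJ
  rw [parts (ww c θ J) (fun j => Bm (θ * j / J)) J]
  have e0 : Bm (θ * ((0 : ℕ) : ℝ) / J) = 0 := by
    rw [Nat.cast_zero, mul_zero, zero_div, Bm_zero]
  have eJ : ww c θ J J = 0 := by
    unfold ww
    rw [if_neg (lt_irrefl _)]
  rw [e0, eJ, mul_zero, zero_mul, add_zero, sub_zero]
  have h1 : ∀ j ∈ range J, ww c θ J j * (Bm (θ * (j + 1 : ℕ) / J) - Bm (θ * j / J)) ≤
      (Ph c (θ * (j + 1 : ℕ) / J) - Ph c (θ * j / J)) +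
        θ / J / c ^ 2 * (Bm (θ * (j + 1 : ℕ) / J) - Bm (θ * j / J)) := by
    intro j hj
    rw [mem_range] at hj
    set a : ℝ := θ * j / J with ha
    set b : ℝ := θ * (j + 1 : ℕ) / J with hb
    have hab : b = a + θ / J := by
      rw [ha, hb]
      push_cast
      ring
    have ha0 : 0 ≤ a := by positivity
    have hh : 0 < θ / J := by positivity
    have hb1 : b < 1 := by
      have h2 : b ≤ θ := by
        rw [hb, div_le_iff₀ hJ0]
        refine mul_le_mul_of_nonneg_left ?_ hθ.le
        exact_mod_cast hj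
      linarith
    have hle : a ≤ b := by linarith
    have h3 := step hc ha0 hle hb1
    have h4 := Bm_mono hle hb1
    have h5 : ww c θ J j = 1 / (c + a) := by
      unfold ww
      rw [if_pos hj]
    rw [h5]
    have h6 : 1 / (c + a) ≤ 1 / (c + b) + θ / J / c ^ 2 := by
      have h7 : 1 / (c + a) - 1 / (c + b) = (θ / J) / ((c + a) * (c + b)) := by
        have h8 : b - a = θ / J := by linarith
        have h9 : c + a ≠ 0 := by positivity
        have h10 : c + b ≠ 0 := by
          have : 0 < c + b := by linarith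
          exact this.ne'
        rw [← h8]
        field_simp
        ring
      have h8 : (θ / J) / ((c + a) * (c + b)) ≤ θ / J / c ^ 2 := by
        refine div_le_div_of_nonneg_left hh.le (by positivity) ?_
        nlinarith
      linarith
    have h7 := mul_le_mul_of_nonneg_right h6 h4
    have h8 : (1 / (c + b) + θ / J / c ^ 2) * (Bm b - Bm a) =
        (Bm b - Bm a) / (c + b) + θ / J / c ^ 2 * (Bm b - Bm a) := by ring
    rw [h8] at h7
    linarith
  refine (sum_le_sum h1).trans ?_
  rw [sum_add_distrib, ← mul_sum, sum_range_sub (fun j => Ph c (θ * j / J)),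
    sum_range_sub (fun j => Bm (θ * j / J))]
  have e1 : θ * ((J : ℕ) : ℝ) / J = θ := by field_simp
  rw [e0, Nat.cast_zero, mul_zero, zero_div, Ph_zero hc, sub_zero, sub_zero, e1]

theorem Ph_nonneg {c s : ℝ} (hc : 0 < c) (h0 : 0 ≤ s) (h1 : s < 1) : 0 ≤ Ph c s := by
  have h := step hc le_rfl h0 h1
  have h2 := Bm_mono h0 h1
  rw [Ph_zero hc, sub_zero] at h
  exact le_trans (by positivity) h

theorem Bm_nonneg {s : ℝ} (h0 : 0 ≤ s) (h1 : s < 1) : 0 ≤ Bm s := by
  have h2 := Bm_mono h0 h1
  rwa [Bm_zero, sub_zero] at h2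

end Pool.Agent.H2.SC
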