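import Pool.Agent.H2.SC.Targets

/-!
# MP_04ff0f_nt, WM: the splitting of `N` by its largest divisor with few prime factors
-/

set_option autoImplicit false

open Finset Real ArithmeticFunction

namespace Pool.Agent.H2.SC

theorem pow_le_of_min {d q : ℕ} (hd : d ≠ 0) (hq : ∀ l, l.Prime → l ∣ d → q ≤ l) :
    q ^ cardFactors d ≤ d := by
  have h1 : ∀ l ∈ d.primeFactorsList, q ≤ l := fun l hl =>
    hq l (Nat.prime_of_mem_primeFactorsList hl) (Nat.dvd_of_mem_primeFactorsList hl)
  have h2 := List.pow_card_le_prod d.primeFactorsList q h1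
  rwa [Nat.prod_primeFactorsList hd, ← cardFactors_apply] at h2

/-- the largest divisor with at most `r` prime factors -/
theorem split {N r : ℕ} (hN : 0 < N) (hr : 1 ≤ r) (hΩ : r ≤ cardFactors N) {T : ℝ}
    (hT : ∀ d : ℕ, d ∣ N → cardFactors d ≤ r → (d : ℝ) ≤ T) :
    ∃ q M : ℕ, q.Prime ∧ 0 < M ∧ M ∣ N ∧ (∀ l : ℕ, l.Prime → l ∣ M → l ≤ q) ∧
      (q : ℝ) ^ r ≤ T ∧ (N : ℝ) * q ≤ T * M := by
  classical
  obtain ⟨d, hd, hmax⟩ := (N.divisors.filter (fun d => cardFactors d ≤ r)).exists_max_image id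
    ⟨1, by simp [hN.ne']⟩
  rw [mem_filter, Nat.mem_divisors] at hd
  obtain ⟨⟨hdN, -⟩, hdr⟩ := hd
  have hmax' : ∀ d' : ℕ, d' ∣ N → cardFactors d' ≤ r → d' ≤ d := fun d' h1 h2 =>
    hmax d' (by rw [mem_filter, Nat.mem_divisors]; exact ⟨⟨h1, hN.ne'⟩, h2⟩)
  have hd0 : 0 < d := Nat.pos_of_dvd_of_pos hdN hN
  obtain ⟨e, he⟩ := hdN
  have he0 : 0 < e := by
    rcases Nat.eq_zero_or_pos e with h | h
    · rw [h, mul_zero] at he
      omega
    · exact h
  -- the number of the prime factors is `r`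
  have hcr : cardFactors d = r := by
    by_contra hne
    have hlt : cardFactors d < r := lt_of_le_of_ne hdr hne
    have he1 : e ≠ 1 := by
      rintro rfl
      rw [mul_one] at he
      rw [← he] at hlt
      omega
    have hp := Nat.minFac_prime he1
    have h1 : d * e.minFac ∣ N := by
      rw [he]
      exact Nat.mul_dvd_mul_left d (Nat.minFac_dvd e)
    have h2 : cardFactors (d * e.minFac) ≤ r := by
      rw [cardFactors_mul hd0.ne' hp.ne_zero, cardFactors_apply_prime hp]
      omega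
    have h3 := hmax' _ h1 h2
    have h4 := hp.two_le
    nlinarith
  have hd1 : d ≠ 1 := by
    rintro rfl
    rw [cardFactors_one] at hcr
    omega
  have hq := Nat.minFac_prime hd1
  obtain ⟨f, hf⟩ := Nat.minFac_dvd d
  have hf0 : 0 < f := by
    rcases Nat.eq_zero_or_pos f with h | h
    · rw [h, mul_zero] at hf
      omega
    · exact h
  have hcf : cardFactors f + 1 = r := by
    have h1 := cardFactors_mul hq.ne_zero hf0.ne'
    rw [← hf, cardFactors_apply_prime hq, hcr] at h1
    omega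
  refine ⟨d.minFac, e * d.minFac, hq, Nat.mul_pos he0 hq.pos, ?_, ?_, ?_, ?_⟩
  · rw [he, mul_comm d e]
    exact Nat.mul_dvd_mul_left e (Nat.minFac_dvd d)
  · intro l hl hle
    rcases (Nat.Prime.dvd_mul hl).1 hle with h | h
    · have h1 : f * l ∣ N := by
        rw [he]
        refine Nat.mul_dvd_mul ⟨d.minFac, ?_⟩ h
        rw [mul_comm]
        exact hf
      have h2 : cardFactors (f * l) ≤ r := by
        rw [cardFactors_mul hf0.ne' hl.ne_zero, cardFactors_apply_prime hl]
        omega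
      have h3 := hmax' _ h1 h2
      have h4 : f * l ≤ f * d.minFac := by
        rw [mul_comm f d.minFac, ← hf]
        exact h3
      exact Nat.le_of_mul_le_mul_left h4 hf0
    · exact ((Nat.prime_dvd_prime_iff_eq hl hq).1 h).le
  · have h1 : d.minFac ^ r ≤ d := by
      have := pow_le_of_min (q := d.minFac) hd0.ne' fun l hl hld => Nat.minFac_le_of_dvd hl.two_le hld
      rwa [hcr] at this
    have h2 : ((d.minFac : ℕ) : ℝ) ^ r ≤ (d : ℝ) := by exact_mod_cast h1
    exact h2.trans (hT d ⟨e, he⟩ hdr)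
  · have h1 := hT d ⟨e, he⟩ hdr
    have h2 : (N : ℝ) * (d.minFac : ℕ) = d * ((e : ℝ) * (d.minFac : ℕ)) := by
      rw [he]
      push_cast
      ring
    rw [h2]
    push_cast
    exact mul_le_mul_of_nonneg_right h1 (by positivity)

end Pool.Agent.H2.SC
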