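import Pool.Agent.H93.SC.Targets2
import Pool.Agent.H64.SC.Api

/-!
Valuations of a generic section which are not trivial on the small field (MP_f2954d_ag, module C1).
-/

namespace Pool.Agent.H2.SC

open _root_.SC

section Join

variable {k K L M J J' : Type} [Field k] [Field K] [Field L] [Field M]
  [Algebra K L] [Algebra k L] [Algebra L M] [Algebra k M]
  [IsScalarTower k L M] (S : J → Sys K) (T : J' → Sys K) (U : Var S → L)

/-- the variables of the joined family -/
def varSum : Var (Sum.elim S T) ≃ Var (fun j => (T j).up L) ⊕ Var S where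
  toFun x := match x with
    | ⟨Sum.inl j, i⟩ => Sum.inr ⟨j, i⟩
    | ⟨Sum.inr j, i⟩ => Sum.inl ⟨j, i⟩
  invFun x := match x with
    | Sum.inl ⟨j, i⟩ => ⟨Sum.inr j, i⟩
    | Sum.inr ⟨j, i⟩ => ⟨Sum.inl j, i⟩
  left_inv := by rintro ⟨j | j, i⟩ <;> rfl
  right_inv := by rintro (⟨j, i⟩ | ⟨j, i⟩) <;> rfl

lemma join_indep (W : Var (fun j => (T j).up L) → M)
    (hU : AlgebraicIndependent k U) (hW : AlgebraicIndependent (kU k U) W) :
    AlgebraicIndependent k (joinU S T U W) := by
  let u : Var S → kU k U := fun x => ⟨U x, IntermediateField.subset_adjoin _ _ ⟨x, rfl⟩⟩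
  have hu : AlgebraicIndependent k u :=
    AlgebraicIndependent.of_comp (kU k U).val (by exact hU)
  have h1 := AlgebraicIndependent.sumElim_comp hu hW
  have h2 : joinU S T U W = Sum.elim W (algebraMap (kU k U) M ∘ u) ∘ varSum S T (L := L) := by
    funext x
    rcases x with ⟨j | j, i⟩
    · show algebraMap L M (U ⟨j, i⟩) = algebraMap (kU k U) M (u ⟨j, i⟩)
      rw [IsScalarTower.algebraMap_apply (kU k U) L M]
      rfl
    · rfl
  rw [h2]
  exact h1.comp _ (varSum S T (L := L)).injective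

lemma join_base_le (W : Var (fun j => (T j).up L) → M) {y : M}
    (hy : y ∈ kU k (joinU S T U W)) : y ∈ kU (kU k U) W := by
  refine IntermediateField.adjoin_induction k
    (p := fun y _ => y ∈ kU (kU k U) W) ?_ ?_ ?_ ?_ ?_ hy
  · rintro _ ⟨⟨j | j, i⟩, rfl⟩
    · have h2 : algebraMap (kU k U) M ⟨U ⟨j, i⟩, IntermediateField.subset_adjoin _ _ ⟨_, rfl⟩⟩ ∈
          kU (kU k U) W := IntermediateField.algebraMap_mem _ _
      exact h2
    · exact IntermediateField.subset_adjoin _ _ ⟨⟨j, i⟩, rfl⟩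
  · intro c
    rw [IsScalarTower.algebraMap_apply k (kU k U) M]
    exact IntermediateField.algebraMap_mem _ _
  · intro a b _ _ ha hb
    exact add_mem ha hb
  · intro a _ ha
    exact inv_mem ha
  · intro a b _ _ ha hb
    exact mul_mem ha hb

lemma join_base_ge (W : Var (fun j => (T j).up L) → M) {y : M}
    (hy : y ∈ kU (kU k U) W) : y ∈ kU k (joinU S T U W) := by
  have h0 : ∀ c : L, c ∈ kU k U → algebraMap L M c ∈ kU k (joinU S T U W) := by
    have h1 : (kU k U).map (IsScalarTower.toAlgHom k L M) ≤ kU k (joinU S T U W) := by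
      rw [kU, kU, IntermediateField.adjoin_map, IntermediateField.adjoin_le_iff]
      rintro _ ⟨_, ⟨⟨j, i⟩, rfl⟩, rfl⟩
      exact IntermediateField.subset_adjoin _ _ ⟨⟨Sum.inl j, i⟩, rfl⟩
    intro c hc
    exact h1 ⟨c, hc, rfl⟩
  refine IntermediateField.adjoin_induction (kU k U)
    (p := fun y _ => y ∈ kU k (joinU S T U W)) ?_ ?_ ?_ ?_ ?_ hy
  · rintro _ ⟨⟨j, i⟩, rfl⟩
    exact IntermediateField.subset_adjoin _ _ ⟨⟨Sum.inr j, i⟩, rfl⟩
  · intro c
    rw [IsScalarTower.algebraMap_apply (kU k U) L M]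
    exact h0 _ c.2
  · intro a b _ _ ha hb
    exact add_mem ha hb
  · intro a _ ha
    exact inv_mem ha
  · intro a b _ _ ha hb
    exact mul_mem ha hb

end Join

section Rebase

variable {k K k' : Type} [Field k] [Field K] [Algebra k K] [Field k'] [Algebra k' K]

lemma over_rebase (v : DV k K) (h : ∀ c : k', v.ord (algebraMap k' K c) = 0) :
    Over v (v.rebase h) 1 := ⟨one_pos, fun x => by simp⟩

/-- algebraicity of the residue field over two equal base fields -/
lemma isAlgebraic_rebase (v : DV k K) (h : ∀ c : k', v.ord (algebraMap k' K c) = 0)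
    (f : k →+* k') (hf : ∀ c, algebraMap k' K (f c) = algebraMap k K c)
    [hA : Algebra.IsAlgebraic k v.Res] : Algebra.IsAlgebraic k' (v.rebase h).Res := by
  have ho := over_rebase v h
  refine Algebra.IsAlgebraic.ringHom_of_comp_eq f ho.resHom f.injective ?_ ?_
  · intro y
    obtain ⟨x, hx, h0, -⟩ := (v.rebase h).exists_red y
    refine ⟨v.red x, ?_⟩
    rw [ho.resHom_compat x h0]
    exact hx
  · ext c
    show algebraMap k' (v.rebase h).Res (f c) = ho.resHom (algebraMap k v.Res c)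
    rw [← DV.red_algebraMap, ← DV.red_algebraMap, ho.resHom_compat _ (by rw [v.ord_base]), hf]
    rfl

end Rebase

lemma core (hG3 : T_G3) (hG4 : T_G4) (hG4t : T_G4t) (hG4u : T_G4u) (hGD : T_GD)
    (hGE : T_GE) (hG5 : T_G5) (hC1g : T_C1g) (k K L J J' M : Type) [Field k] [Field K] [Field L]
    [Field M] [Algebra k K] [Algebra K L] [Algebra k L] [IsScalarTower k K L] [Fintype J]
    [Fintype J'] [Algebra L M] [Algebra K M] [IsScalarTower K L M] [Algebra k M]
    [IsScalarTower k L M] [IsScalarTower k K M]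
    (S : J → Sys K) (T : J' → Sys K) (U : Var S → L) (W : Var (fun j => (T j).up L) → M)
    (w : DV (kU k U) L) (hS : ∀ j, (S j).Nz) (hT : ∀ j, (T j).Nz) (hU : IsGen S U)
    (hW : IsGen (fun j => (T j).up L) W)
    (hind : AlgebraicIndependent k U)
    (htr : Algebra.trdeg k K = (Fintype.card J + Fintype.card J' + 1 : ℕ))
    (hidx : Idx (fun j => w.res ((T j).up L)) (kU k U) ≠ 0)
    (hnt : ∃ x : K, w.ord (algebraMap K L x) ≠ 0) :
    ∃ v : DV k K, Gauss v w S U ∧
      Idx (fun j => w.res ((T j).up L)) (kU k U) = Idx (fun j => v.res (Sum.elim S T j)) k := by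
  classical
  have hTLnz : ∀ j, ((T j).up L).Nz := fun j => Sys.up_nz L (hT j)
  obtain ⟨hWind, w1, hw1⟩ := hGE (kU k U) L M J' w (fun j => (T j).up L) W hTLnz hW hidx
  have hdeg := hGD (kU k U) L M J' w (fun j => (T j).up L) W w1 hTLnz hW hWind hw1
  have hdeg' : Module.finrank (kU (kU k U) W) w1.Res ≠ 0 := by
    have h1 : w1.deg ≠ 0 := by rw [hdeg]; exact hidx
    exact h1
  have hfin : Module.Finite (kU (kU k U) W) w1.Res :=
    Module.finite_of_finrank_pos (Nat.pos_of_ne_zero hdeg')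
  have halg1 : Algebra.IsAlgebraic (kU (kU k U) W) w1.Res := inferInstance
  -- the joined family
  let U2 : Var (Sum.elim S T) → M := joinU S T U W
  have hU2 : IsGen (Sum.elim S T) U2 := hG3 K L M J J' S T U W hS hT hU hW
  have hU2ind : AlgebraicIndependent k U2 := join_indep S T U W hind hWind
  -- change of the base field
  have hb : ∀ c : kU k U2, w1.ord (algebraMap (kU k U2) M c) = 0 := by
    intro c
    exact w1.ord_base ⟨(c : M), join_base_le S T U W c.2⟩
  let f : kU (kU k U) W →+* kU k U2 :=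
    { toFun := fun y => ⟨(y : M), join_base_ge S T U W y.2⟩
      map_one' := rfl
      map_mul' := fun _ _ => rfl
      map_zero' := rfl
      map_add' := fun _ _ => rfl }
  have halg2 : Algebra.IsAlgebraic (kU k U2) (w1.rebase hb).Res :=
    isAlgebraic_rebase w1 hb f (fun c => rfl)
  have hord : ∀ x : L, (w1.rebase hb).ord (algebraMap L M x) = w.ord x := hw1.ordK
  have hKM : ∀ x : K, algebraMap K M x = algebraMap L M (algebraMap K L x) :=
    fun x => IsScalarTower.algebraMap_apply K L M x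
  have hSTnz : ∀ j, (Sum.elim S T j).Nz := by
    rintro (j | j)
    · exact hS j
    · exact hT j
  obtain ⟨v, hv⟩ := hG5 k K M (J ⊕ J') (Sum.elim S T) U2 (w1.rebase hb) hSTnz hU2 hU2ind
    (by rw [Fintype.card_sum]; exact htr) halg2 (by
      obtain ⟨x, hx⟩ := hnt
      refine ⟨x, ?_⟩
      rw [hKM, hord]
      exact hx)
  -- `w` lies over `v`
  have hover : Over v w 1 := by
    refine ⟨one_pos, fun x => ?_⟩
    rw [← hord, ← hKM, hv.ordK]
    simp
  have hover2 : Over w (w1.rebase hb) 1 := ⟨one_pos, fun x => by rw [hord]; simp⟩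
  have hcompat : ResCompat v (w1.rebase hb) (hover2.resHom.comp hover.resHom) := by
    intro x hx
    show hover2.resHom (hover.resHom (v.red x)) = _
    rw [hover.resHom_compat x hx, hover2.resHom_compat _ ((hover.nonneg_iff x).mpr hx), ← hKM]
  obtain ⟨φ, hφ, hgen⟩ := hv.gen
  have hφ' : φ = hover2.resHom.comp hover.resHom := hφ.unique hcompat
  -- pivots of minimal order
  choose i0 hi0 hi0' using fun j => v.mo_exists (S j) (hS j)
  choose i1 hi1 hi1' using fun j => v.mo_exists (T j) (hT j)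
  have hUnn : ∀ x, 0 ≤ w.ord (U x) := by
    rintro ⟨j, i⟩
    rw [← hord]
    exact hv.nonneg ⟨Sum.inl j, i⟩
  have hresind : letI : Algebra v.Res w.Res := hover.resHom.toAlgebra
      AlgebraicIndependent v.Res (fun x : {x : Var S // x.2 ≠ i0 x.1} => w.red (U x.1)) := by
    let a1 : Algebra v.Res w.Res := hover.resHom.toAlgebra
    let a2 : Algebra v.Res (w1.rebase hb).Res := φ.toAlgebra
    let i2 : ∀ j, Fin (Sum.elim S T j).r := fun j => match j with
      | Sum.inl j => i0 j
      | Sum.inr j => i1 j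
    have h1 := hgen.indep i2 (by
      rintro (j | j)
      · exact (v.res_s_ne_zero_iff (S j) (i0 j)).mpr ⟨hi0 j, hi0' j⟩
      · exact (v.res_s_ne_zero_iff (T j) (i1 j)).mpr ⟨hi1 j, hi1' j⟩)
    let g : {x : Var S // x.2 ≠ i0 x.1} → {x : Var (Sum.elim S T) // x.2 ≠ i2 x.1} :=
      fun x => ⟨⟨Sum.inl x.1.1, x.1.2⟩, x.2⟩
    have hg : Function.Injective g := by
      rintro ⟨⟨j, i⟩, h⟩ ⟨⟨j', i'⟩, h'⟩ he
      have he' : (⟨Sum.inl j, i⟩ : Var (Sum.elim S T)) = ⟨Sum.inl j', i'⟩ := congrArg Subtype.val he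
      simp only [Sigma.mk.injEq, Sum.inl.injEq] at he'
      obtain ⟨rfl, h3⟩ := he'
      have h4 : i = i' := eq_of_heq h3
      subst h4
      rfl
    have h2 := h1.comp g hg
    let ψ : w.Res →ₐ[v.Res] (w1.rebase hb).Res :=
      { hover2.resHom with
        commutes' := by
          intro c
          show hover2.resHom (hover.resHom c) = φ c
          rw [hφ']
          rfl }
    have h3 : (fun x : {x : Var S // x.2 ≠ i0 x.1} => ψ (w.red (U x.1))) =
        (fun x : {x : Var (Sum.elim S T) // x.2 ≠ i2 x.1} => (w1.rebase hb).red (U2 x.1)) ∘ g := by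
      funext x
      show hover2.resHom (w.red (U x.1)) = (w1.rebase hb).red (U2 ⟨Sum.inl x.1.1, x.1.2⟩)
      rw [hover2.resHom_compat _ (hUnn x.1)]
      rfl
    refine AlgebraicIndependent.of_comp ψ ?_
    show AlgebraicIndependent v.Res
      (fun x : {x : Var S // x.2 ≠ i0 x.1} => ψ (w.red (U x.1)))
    rw [h3]
    exact h2
  obtain ⟨wG, hwG⟩ := hG4 k K L J v S U hS hU
  have hordeq : w.ord = wG.ord := hG4u k K k (kU k U) L J v wG w S U 1 hover.resHom i0 hS hU hwG
    hover hover.resHom_compat hUnn (fun j => ⟨hi0 j, hi0' j⟩) hresind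
  have hgauss : Gauss v w S U := hG4t k K k (kU k U) L J v wG w S U hordeq hwG
  exact ⟨v, hgauss, hC1g k K L J J' S T U v w hS hT hU hind hgauss⟩

theorem c1 (hG1a : T_G1a) (hG3 : T_G3) (hG4 : T_G4) (hG4t : T_G4t) (hG4u : T_G4u) (hGD : T_GD)
    (hGE : T_GE) (hG5 : T_G5) (hC1g : T_C1g) : T_C1 := by
  intro k K L J J' _ _ _ _ _ _ _ _ _ S T U w hS hT hU hind htr hidx hnt
  have hTLnz : ∀ j, ((T j).up L).Nz := fun j => Sys.up_nz L (hT j)
  exact core hG3 hG4 hG4t hG4u hGD hGE hG5 hC1g k K L J J' (Gen fun j => (T j).up L) S T U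
    (genU fun j => (T j).up L) w hS hT hU (hG1a L J' _ hTLnz) hind htr hidx hnt

end Pool.Agent.H2.SC
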