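import Pool.Agent.H93.SC.Targets2
import Pool.Agent.H64.SC.Api

/-!
The class of a valuation which is trivial on the small field (MP_f2954d_ag, module C3).
-/

namespace Pool.Agent.H2.SC

open _root_.SC

section Free

variable {K L J : Type} [Field K] [Field L] [Algebra K L] {S : J → Sys K} {U : Var S → L}

/-- the free variables generate the field -/
lemma free_gen (hU : IsGen S U) (i0 : ∀ j, Fin (S j).r) (h0 : ∀ j, (S j).s (i0 j) ≠ 0) :
    IntermediateField.adjoin K (Set.range fun x : {x : Var S // x.2 ≠ i0 x.1} => U x.1) = ⊤ := by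
  classical
  rw [eq_top_iff, ← hU.gen, IntermediateField.adjoin_le_iff]
  rintro _ ⟨⟨j, i⟩, rfl⟩
  have hfree : ∀ i : Fin (S j).r, i ≠ i0 j → U ⟨j, i⟩ ∈ IntermediateField.adjoin K
      (Set.range fun x : {x : Var S // x.2 ≠ i0 x.1} => U x.1) := fun i hi =>
    IntermediateField.subset_adjoin _ _ ⟨⟨⟨j, i⟩, hi⟩, rfl⟩
  by_cases hi : i = i0 j
  · subst hi
    have h1 := hU.rel j
    rw [← Finset.add_sum_erase _ _ (Finset.mem_univ (i0 j))] at h1
    have h2 : algebraMap K L ((S j).s (i0 j)) ≠ 0 := (map_ne_zero _).mpr (h0 j)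
    have h3 : U ⟨j, i0 j⟩ = - (algebraMap K L ((S j).s (i0 j)))⁻¹ *
        ∑ i ∈ Finset.univ.erase (i0 j), algebraMap K L ((S j).s i) * U ⟨j, i⟩ := by
      field_simp
      linear_combination h1
    rw [h3]
    refine mul_mem (neg_mem (inv_mem (IntermediateField.algebraMap_mem _ _))) (sum_mem ?_)
    intro i hi
    exact mul_mem (IntermediateField.algebraMap_mem _ _) (hfree i (Finset.ne_of_mem_erase hi))
  · exact hfree i hi

/-- two valuations attached to associated irreducible polynomials coincide -/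
lemma padic_unique {k k' : Type} [Field k] [Field k'] [Algebra k L] [Algebra k' L]
    (hU : IsGen S U) (i0 : ∀ j, Fin (S j).r)
    (h0 : ∀ j, (S j).s (i0 j) ≠ 0) (w : DV k L) (w' : DV k' L)
    (p p' : MvPolynomial {x : Var S // x.2 ≠ i0 x.1} K) (hp : Irreducible p)
    (hp' : Irreducible p')
    (h1 : w.ord (MvPolynomial.aeval (fun x : {x : Var S // x.2 ≠ i0 x.1} => U x.1) p) = 1)
    (h2 : ∀ q : MvPolynomial {x : Var S // x.2 ≠ i0 x.1} K, ¬ p ∣ q →
      w.ord (MvPolynomial.aeval (fun x : {x : Var S // x.2 ≠ i0 x.1} => U x.1) q) = 0)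
    (h1' : w'.ord (MvPolynomial.aeval (fun x : {x : Var S // x.2 ≠ i0 x.1} => U x.1) p') = 1)
    (h2' : ∀ q : MvPolynomial {x : Var S // x.2 ≠ i0 x.1} K, ¬ p' ∣ q →
      w'.ord (MvPolynomial.aeval (fun x : {x : Var S // x.2 ≠ i0 x.1} => U x.1) q) = 0)
    (hdvd : p' ∣ p) : w'.ord = w.ord := by
  classical
  have hind := hU.indep i0 h0
  set ev := MvPolynomial.aeval (R := K) (fun x : {x : Var S // x.2 ≠ i0 x.1} => U x.1) with hev
  have hne : ∀ q, q ≠ 0 → ev q ≠ 0 := by
    intro q hq h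
    exact hq ((algebraicIndependent_iff.mp hind) q h)
  have hassoc : Associated p' p := hp'.associated_of_dvd hp hdvd
  have hp1 : w'.ord (ev p) = 1 := by
    obtain ⟨u, hu⟩ := hassoc
    rw [← hu, map_mul, w'.ord_mul _ _ (hne _ hp'.ne_zero) (hne _ u.ne_zero), h1',
      h2' (u : MvPolynomial _ K) (fun h => hp'.not_isUnit (isUnit_of_dvd_unit h u.isUnit))]
    rfl
  have hq : ∀ q, q ≠ 0 → w'.ord (ev q) = w.ord (ev q) := by
    intro q hq
    have hfm : FiniteMultiplicity p q := FiniteMultiplicity.of_not_isUnit hp.not_isUnit hq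
    obtain ⟨r, hr, hr'⟩ := hfm.exists_eq_pow_mul_and_not_dvd
    have hr0 : r ≠ 0 := fun h => hr' (h ▸ dvd_zero p)
    have hr'' : ¬ p' ∣ r := fun h => hr' (hassoc.symm.dvd.trans h)
    rw [hr, map_mul, map_pow, w'.ord_mul _ _ (pow_ne_zero _ (hne _ hp.ne_zero)) (hne _ hr0),
      w.ord_mul _ _ (pow_ne_zero _ (hne _ hp.ne_zero)) (hne _ hr0), w'.ord_pow, w.ord_pow, hp1,
      h1, h2 r hr', h2' r hr'']
  funext x
  by_cases hx : x = 0
  · rw [hx, w.ord_zero, w'.ord_zero]
  have hxm : x ∈ IntermediateField.adjoin K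
      (Set.range fun x : {x : Var S // x.2 ≠ i0 x.1} => U x.1) := by
    rw [free_gen hU i0 h0]; trivial
  obtain ⟨r, s, hrs⟩ := (IntermediateField.mem_adjoin_range_iff K _ x).1 hxm
  have hr : r ≠ 0 := by
    rintro rfl
    rw [map_zero, zero_div] at hrs
    exact hx hrs
  have hs : s ≠ 0 := by
    rintro rfl
    rw [map_zero, div_zero] at hrs
    exact hx hrs
  rw [hrs, w.ord_div (hne _ hr) (hne _ hs), w'.ord_div (hne _ hr) (hne _ hs), hq r hr, hq s hs]

end Free

section GaussLemmas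

variable {k K L J : Type} [Field k] [Field K] [Field L] [Algebra k K] [Algebra K L]
  {S : J → Sys K} {U : Var S → L}

lemma gauss_over {k' : Type} [Field k'] [Algebra k' L] {v : DV k K} {w : DV k' L}
    (h : Gauss v w S U) : Over v w 1 := ⟨one_pos, fun x => by rw [h.ordK]; simp⟩

/-- uniqueness of the Gauss extension -/
lemma gauss_unique (hG4u : T_G4u) [Finite J] {k' k'' : Type} [Field k'] [Field k''] [Algebra k' L]
    [Algebra k'' L] (hS : ∀ j, (S j).Nz) (hU : IsGen S U) {v : DV k K} {w : DV k' L}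
    {w' : DV k'' L} (h : Gauss v w S U) (h' : Gauss v w' S U) : w'.ord = w.ord := by
  obtain ⟨φ, hφ, hgen⟩ := h'.gen
  let _ : Algebra v.Res w'.Res := φ.toAlgebra
  choose i0 hi0 hi0' using fun j => v.mo_exists (S j) (hS j)
  exact hG4u k K k' k'' L J v w w' S U 1 φ i0 hS hU h (gauss_over h') hφ h'.nonneg
    (fun j => ⟨hi0 j, hi0' j⟩)
    (hgen.indep i0 fun j => (v.res_s_ne_zero_iff (S j) (i0 j)).mpr ⟨hi0 j, hi0' j⟩)

/-- a Gauss extension is trivial on the generic base field if some index does not vanish -/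
lemma gauss_trivial (hG3i : T_G3i) [Algebra k L] [IsScalarTower k K L] [Finite J] {J' : Type}
    [Finite J'] (T : J' → Sys K) (hS : ∀ j, (S j).Nz) (hT : ∀ j, (T j).Nz)
    {v : DV k K} {w : DV k L} (h : Gauss v w S U)
    (hidx : Idx (fun j => v.res (Sum.elim S T j)) k ≠ 0) :
    ∀ c : kU k U, w.ord (algebraMap (kU k U) L c) = 0 := by
  obtain ⟨φ, hφ, hgen⟩ := h.gen
  let _ : Algebra v.Res w.Res := φ.toAlgebra
  have htower : IsScalarTower k v.Res w.Res := by
    refine IsScalarTower.of_algebraMap_eq fun c => ?_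
    have h1 := hφ (algebraMap k K c) (by rw [v.ord_base])
    rw [v.red_algebraMap, ← IsScalarTower.algebraMap_apply k K L, w.red_algebraMap] at h1
    exact h1.symm
  have e1 : (fun j => v.res (Sum.elim S T j)) =
      Sum.elim (fun j => v.res (S j)) (fun j => v.res (T j)) := by
    funext j
    cases j <;> rfl
  rw [e1] at hidx
  have h3 : AlgebraicIndependent k (fun x : Var S => w.red (U x)) := by
    by_contra hc
    exact hidx ((hG3i k v.Res w.Res J J' (fun j => v.res (S j)) (fun j => v.res (T j))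
      (fun x : Var S => w.red (U x)) (fun j => v.res_nz (hS j)) (fun j => v.res_nz (hT j))
      hgen).2 hc)
  have h4 : ∀ p : MvPolynomial (Var S) k, p ≠ 0 → MvPolynomial.aeval U p ≠ 0 ∧
      w.ord (MvPolynomial.aeval U p) = 0 := by
    intro p hp
    obtain ⟨h5, h6⟩ := w.red_aeval U h.nonneg p
    have h7 : w.red (MvPolynomial.aeval U p) ≠ 0 := by
      rw [h6]
      intro h8
      exact hp ((algebraicIndependent_iff.mp h3) p h8)
    exact w.red_ne_zero_iff.mp h7
  rintro ⟨c, hc⟩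
  change w.ord c = 0
  by_cases hc0 : c = 0
  · rw [hc0, w.ord_zero]
  obtain ⟨r, s, hrs⟩ := (IntermediateField.mem_adjoin_range_iff k U c).1 hc
  have hr : r ≠ 0 := by
    rintro rfl
    rw [map_zero, zero_div] at hrs
    exact hc0 hrs
  have hs : s ≠ 0 := by
    rintro rfl
    rw [map_zero, div_zero] at hrs
    exact hc0 hrs
  have h7 := h4 r hr
  have h8 := h4 s hs
  rw [hrs, w.ord_div h7.1 h8.1, h7.2, h8.2]
  rfl

end GaussLemmas

theorem c3 (hM8 : T_M8) (hC1 : T_C1) (hC1g : T_C1g) (hC2 : T_C2) (hG4 : T_G4) (hG4u : T_G4u)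
    (hG4t : T_G4t) (hG3i : T_G3i) (hG3t : T_G3t) : T_C3 := by
  intro k K L J _ _ _ _ _ _ _ _ _ _ S U w i0 hS hU h0 hind htriv p hp hp1 hp2
  classical
  set ev := MvPolynomial.aeval (R := K) (fun x : {x : Var S // x.2 ≠ i0 x.1} => U x.1) with hev
  choose vG hvG using fun v : DV k K => hG4 k K L J v S U hS hU
  refine ⟨fun v => - (vG v).ord (ev p), ?_⟩
  intro J' _ T hT htr
  set I' : DV k K → ℕ := fun v => Idx (fun j => v.res (Sum.elim S T j)) k with hI'
  set TL : J' → Sys L := fun j => (T j).up L with hTL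
  have hTLnz : ∀ j, (TL j).Nz := fun j => Sys.up_nz L (hT j)
  obtain ⟨hess, -, htr2⟩ := hG3t k K L J S U _ hS hU hind htr
  have hcz : CharZero (kU k U) := charZero_of_injective_algebraMap (algebraMap k (kU k U)).injective
  obtain ⟨hfin, hsum⟩ := hM8 (kU k U) L J' TL hTLnz (by rw [htr2]; congr 1; omega) (ev p)
  set I : DV (kU k U) L → ℕ := fun w' => Idx (fun j => w'.res (TL j)) (kU k U) with hI
  -- the Gauss extensions over the generic base field
  let Φ : DV k K → DV (kU k U) L := fun v =>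
    if h : I' v ≠ 0 then (vG v).rebase (gauss_trivial hG3i T hS hT (hvG v) h) else w
  have hΦord : ∀ v, I' v ≠ 0 → (Φ v).ord = (vG v).ord := by
    intro v h
    have : Φ v = (vG v).rebase (gauss_trivial hG3i T hS hT (hvG v) h) := dif_pos h
    rw [this]
    rfl
  have hΦG : ∀ v, I' v ≠ 0 → Gauss v (Φ v) S U := fun v h =>
    hG4t k K k (kU k U) L J v (vG v) (Φ v) S U (hΦord v h) (hvG v)
  have hΦI : ∀ v, I' v ≠ 0 → I (Φ v) = I' v := fun v h =>
    hC1g k K L J J' S T U v (Φ v) hS hT hU hind (hΦG v h)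
  have hinj : Set.InjOn Φ {v : DV k K | I' v ≠ 0} := by
    intro v hv v' hv' he
    apply DV.ext
    funext x
    rw [← (hΦG v hv).ordK, he, (hΦG v' hv').ordK]
  set B : Set (DV k K) := {v | - (vG v).ord (ev p) ≠ 0 ∧ I' v ≠ 0} with hB
  set A : Set (DV (kU k U) L) := {w' | w'.ord (ev p) ≠ 0 ∧ I w' ≠ 0} with hA
  have hBA : ∀ v ∈ B, Φ v ∈ A := by
    rintro v ⟨h1, h2⟩
    refine ⟨?_, ?_⟩
    · rw [hΦord v h2]
      exact fun h => h1 (by rw [h, neg_zero])
    · rw [hΦI v h2]
      exact h2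
  have hBfin : B.Finite := by
    apply Set.Finite.of_finite_image (f := Φ)
    · exact hfin.subset (Set.image_subset_iff.mpr hBA)
    · exact hinj.mono fun v hv => hv.2
  refine ⟨hBfin, ?_⟩
  -- the two sums
  have e1 : ∑ᶠ v : DV k K, - (vG v).ord (ev p) * (I' v : ℤ) =
      ∑ v ∈ hBfin.toFinset, - (vG v).ord (ev p) * (I' v : ℤ) := by
    apply finsum_eq_sum_of_support_subset
    intro v hv
    have h1 : - (vG v).ord (ev p) * (I' v : ℤ) ≠ 0 := hv
    rw [Set.Finite.coe_toFinset]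
    exact ⟨left_ne_zero_of_mul h1, by exact_mod_cast right_ne_zero_of_mul h1⟩
  have e2 : ∑ᶠ w' : DV (kU k U) L, w'.ord (ev p) * (I w' : ℤ) =
      ∑ w' ∈ hfin.toFinset, w'.ord (ev p) * (I w' : ℤ) := by
    apply finsum_eq_sum_of_support_subset
    intro w' hv
    have h1 : w'.ord (ev p) * (I w' : ℤ) ≠ 0 := hv
    rw [Set.Finite.coe_toFinset]
    exact ⟨left_ne_zero_of_mul h1, by exact_mod_cast right_ne_zero_of_mul h1⟩
  have hsum' : ∑ᶠ w' : DV (kU k U) L, w'.ord (ev p) * (I w' : ℤ) = 0 := hsum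
  rw [e2, ← Finset.sum_filter_add_sum_filter_not _
    (fun w' : DV (kU k U) L => ∀ x : K, w'.ord (algebraMap K L x) = 0)] at hsum'
  -- the trivial part
  have e3 : ∑ w' ∈ hfin.toFinset with ∀ x : K, w'.ord (algebraMap K L x) = 0,
      w'.ord (ev p) * (I w' : ℤ) = (I w : ℤ) := by
    have hsub : (hfin.toFinset.filter
        fun w' : DV (kU k U) L => ∀ x : K, w'.ord (algebraMap K L x) = 0) ⊆ {w} := by
      intro w' hw'
      rw [Finset.mem_filter, Set.Finite.mem_toFinset] at hw'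
      obtain ⟨⟨h1, h2⟩, h3⟩ := hw'
      obtain ⟨p', hp', hp1', hp2'⟩ := hC2 k K L J J' S T U w' i0 hT hU h0 hind htr h2 h3
      have hdvd : p' ∣ p := by
        by_contra hc
        exact h1 (hp2' p hc)
      rw [Finset.mem_singleton]
      exact DV.ext (padic_unique hU i0 h0 w w' p p' hp hp' hp1 hp2 hp1' hp2' hdvd)
    rw [Finset.sum_subset hsub, Finset.sum_singleton, hp1, one_mul]
    intro x hx hx'
    rw [Finset.mem_singleton] at hx
    subst hx
    rw [Finset.mem_filter, Set.Finite.mem_toFinset] at hx'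
    have h4 : ¬ (x.ord (ev p) ≠ 0 ∧ I x ≠ 0) := fun h => hx' ⟨h, htriv⟩
    rw [not_and_or, not_not, not_not] at h4
    rcases h4 with h4 | h4
    · rw [h4, zero_mul]
    · rw [h4]; simp
  have e4 : ∑ v ∈ hBfin.toFinset, (vG v).ord (ev p) * (I' v : ℤ) =
      ∑ w' ∈ hfin.toFinset with ¬ ∀ x : K, w'.ord (algebraMap K L x) = 0,
        w'.ord (ev p) * (I w' : ℤ) := by
    refine Finset.sum_nbij Φ ?_ ?_ ?_ ?_
    · intro v hv
      rw [Set.Finite.mem_toFinset] at hv
      rw [Finset.mem_filter, Set.Finite.mem_toFinset]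
      refine ⟨hBA v hv, ?_⟩
      push Not
      obtain ⟨x, -, hx⟩ := v.ord_surj
      refine ⟨x, ?_⟩
      rw [(hΦG v hv.2).ordK, hx]
      exact one_ne_zero
    · intro v hv v' hv' he
      rw [Set.Finite.coe_toFinset] at hv hv'
      exact hinj hv.2 hv'.2 he
    · intro w' hw'
      rw [Finset.mem_coe, Finset.mem_filter, Set.Finite.mem_toFinset] at hw'
      obtain ⟨⟨h1, h2⟩, h3⟩ := hw'
      push Not at h3
      obtain ⟨v, hv, hvI⟩ := hC1 k K L J J' S T U w' hS hT hU hind htr h2 h3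
      have hvI' : I' v ≠ 0 := by
        have h4 : I w' = I' v := hvI
        rw [← h4]; exact h2
      have h5 : w'.ord = (vG v).ord := gauss_unique hG4u hS hU (hvG v) hv
      refine ⟨v, ?_, ?_⟩
      · rw [Set.Finite.coe_toFinset]
        refine ⟨?_, hvI'⟩
        rw [← h5, neg_ne_zero]
        exact h1
      · apply DV.ext
        rw [hΦord v hvI', h5]
    · intro v hv
      rw [Set.Finite.mem_toFinset] at hv
      rw [hΦord v hv.2, hΦI v hv.2]
  have e5 : ∑ v ∈ hBfin.toFinset, - (vG v).ord (ev p) * (I' v : ℤ) =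
      - ∑ v ∈ hBfin.toFinset, (vG v).ord (ev p) * (I' v : ℤ) := by
    rw [← Finset.sum_neg_distrib]
    apply Finset.sum_congr rfl
    intro v _
    ring
  show (I w : ℤ) = ∑ᶠ v : DV k K, - (vG v).ord (ev p) * (I' v : ℤ)
  rw [e1, e5, e4]
  rw [e3] at hsum'
  linarith

end Pool.Agent.H2.SC
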