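import Pool.Agent.H2.SC.Ana

/-!
# MP_04ff0f_nt, NUM and LIM: values of the density bound
-/

set_option autoImplicit false

open Finset Real

namespace Pool.Agent.H2.SC

/-- for `t ≤ r / 2` the bound is `log (1 + t / (r (2 - t)))` -/
theorem FW_small {t : ℝ} {r : ℕ} (ht : t < 2) (hr : t / r ≤ 1 / 2) :
    FW t r = Real.log (1 + (t / r) / (2 - t)) := by
  unfold FW
  rw [min_eq_left hr, max_eq_right hr]
  have h3 : (2 - t + 1 / 2) / (2 * (1 - 1 / 2) * (5 / 2 - t)) = 1 := by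
    have h1 : (2 : ℝ) * (1 - 1 / 2) = 1 := by norm_num
    have h2 : (2 : ℝ) - t + 1 / 2 = 5 / 2 - t := by ring
    rw [h1, one_mul, h2]
    exact div_self (by linarith)
  rw [h3]
  simp

/-- logarithms from the partial sums of the exponential -/
theorem log_lt_of_sum {a b : ℝ} (n : ℕ) (ha : 0 < a) (hb : 0 ≤ b)
    (h : a < ∑ i ∈ Finset.range n, b ^ i / (Nat.factorial i : ℝ)) : Real.log a < b := by
  rw [Real.log_lt_iff_lt_exp ha]
  exact h.trans_le (Real.sum_le_exp_of_nonneg hb n)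

theorem FW_two : FW (21 / 20) 2 < 1 / 2 := by
  unfold FW
  have h0 : (21 / 20 : ℝ) / ((2 : ℕ) : ℝ) = 21 / 40 := by norm_num
  rw [h0]
  have h1 : min (21 / 40 : ℝ) (1 / 2) = 1 / 2 := min_eq_right (by norm_num)
  have h2 : max (21 / 40 : ℝ) (1 / 2) = 21 / 40 := max_eq_left (by norm_num)
  rw [h1, h2]
  have e1 : (1 + 1 / 2 / (2 - 21 / 20) : ℝ) = 29 / 19 := by norm_num
  have e2 : ((2 - 21 / 20 + 21 / 40) / (2 * (1 - 21 / 40) * (5 / 2 - 21 / 20)) : ℝ)
      = 590 / 551 := by norm_num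
  have e3 : (2 / (3 - 21 / 20) : ℝ) = 40 / 39 := by norm_num
  rw [e1, e2, e3]
  have l1 : Real.log (29 / 19) < 424 / 1000 := by
    apply log_lt_of_sum 7 (by norm_num) (by norm_num)
    norm_num [Finset.sum_range_succ, Nat.factorial]
  have l2 : Real.log (590 / 551) < 69 / 1000 := by
    apply log_lt_of_sum 5 (by norm_num) (by norm_num)
    norm_num [Finset.sum_range_succ, Nat.factorial]
  linarith

theorem FW_three : FW (33 / 25) 3 < 1 / 2 := by
  rw [FW_small (by norm_num) (by norm_num)]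
  have e1 : (1 + (33 / 25 : ℝ) / ((3 : ℕ) : ℝ) / (2 - 33 / 25) : ℝ) = 28 / 17 := by norm_num
  rw [e1]
  apply log_lt_of_sum 7 (by norm_num) (by norm_num)
  norm_num [Finset.sum_range_succ, Nat.factorial]

theorem FW_four : FW (36 / 25) 4 < 1 / 2 := by
  rw [FW_small (by norm_num) (by norm_num)]
  have e1 : (1 + (36 / 25 : ℝ) / ((4 : ℕ) : ℝ) / (2 - 36 / 25) : ℝ) = 23 / 14 := by norm_num
  rw [e1]
  apply log_lt_of_sum 7 (by norm_num) (by norm_num)
  norm_num [Finset.sum_range_succ, Nat.factorial]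

/-- NUM -/
theorem pf_NUM : FW 1.05 2 < 1 / 2 ∧ FW 1.32 3 < 1 / 2 ∧ FW 1.44 4 < 1 / 2 := by
  have a : (1.05 : ℝ) = 21 / 20 := by norm_num
  have b : (1.32 : ℝ) = 33 / 25 := by norm_num
  have c : (1.44 : ℝ) = 36 / 25 := by norm_num
  rw [a, b, c]
  exact ⟨FW_two, FW_three, FW_four⟩

/-- LIM: the bound tends to zero with the number of prime factors -/
theorem pf_LIM : ∀ t : ℝ, 0 < t → t < 2 → ∀ e : ℝ, 0 < e →
    ∃ r₀ : ℕ, 2 ≤ r₀ ∧ ∀ r : ℕ, r₀ ≤ r → FW t r < e := by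
  intro t ht0 ht2 e he
  have hc : 0 < 2 - t := by linarith
  obtain ⟨N, hN⟩ := exists_nat_gt (t / (e * (2 - t)))
  refine ⟨max N 4, le_max_of_le_right (by norm_num), fun r hr => ?_⟩
  have hr4 : (4 : ℝ) ≤ r := by
    exact_mod_cast (le_max_right N 4).trans hr
  have hrN : (N : ℝ) ≤ r := by
    exact_mod_cast (le_max_left N 4).trans hr
  have hr0 : (0 : ℝ) < r := by linarith
  have hs : t / r ≤ 1 / 2 := by
    rw [div_le_div_iff₀ hr0 two_pos]
    linarith
  rw [FW_small ht2 hs]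
  have hp : 0 < t / r / (2 - t) := by positivity
  have h1 : Real.log (1 + t / r / (2 - t)) ≤ t / r / (2 - t) := by
    have := Real.log_le_sub_one_of_pos (show 0 < 1 + t / r / (2 - t) by linarith)
    linarith
  have h2 : t / (e * (2 - t)) < r := hN.trans_le hrN
  have h3 : t / r / (2 - t) < e := by
    rw [div_lt_iff₀ (by positivity)] at h2
    rw [div_div, div_lt_iff₀ (by positivity)]
    nlinarith
  linarith

end Pool.Agent.H2.SC
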