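import Pool.Agent.H25.LF.Targets

/-!
# MP_04ff0f_nt: divisors of `p ^ 2 - 2` with few prime factors. Definitions and target
-/

set_option autoImplicit false

open Finset Real ArithmeticFunction

namespace Pool.Agent.H2.SC

open Pool.Agent.H25.LF

open Classical in
/-- the primes `p ≤ x` for which each divisor of `p ^ 2 - 2` with at most `r` prime factors
is at most `x ^ t` -/
noncomputable def BR (x : ℕ) (t : ℝ) (r : ℕ) : Finset ℕ :=
  (PR x).filter (fun p => ∀ d : ℕ, d ∣ p ^ 2 - 2 → cardFactors d ≤ r → (d : ℝ) ≤ (x : ℝ) ^ t)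

/-- the density bound: `log (1 + t / (r (2 - t)))` for `t ≤ r / 2` -/
noncomputable def FW (t : ℝ) (r : ℕ) : ℝ :=
  Real.log (1 + min (t / r) (1 / 2) / (2 - t)) +
    2 / (3 - t) * Real.log ((2 - t + max (t / r) (1 / 2)) /
      (2 * (1 - max (t / r) (1 / 2)) * (5 / 2 - t)))

/-- WM. The density of the primes `p` for which all divisors of `p ^ 2 - 2` with at most `r` prime
factors are small. -/
def T_WM : Prop := ∀ (t δ : ℝ) (r : ℕ), 1 ≤ r → 0 < t → t < 2 → t < r → 0 < δ →
  ∃ x₀ : ℕ, ∀ x : ℕ, x₀ ≤ x → ((BR x t r).card : ℝ) ≤ (FW t r + δ) * Nat.primeCounting x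

end Pool.Agent.H2.SC
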