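import Pool.Agent.H2.SC.Arith
import Pool.Agent.H2.SC.Ana
import Pool.Agent.H56.LF.BAD
import Pool.Agent.H18.LF.CHB

/-!
# MP_04ff0f_nt, WM: the density of the primes `p` for which all divisors of `p ^ 2 - 2` with at most
`r` prime factors are small
-/

set_option autoImplicit false

open Finset Real ArithmeticFunction

namespace Pool.Agent.H2.SC

open Pool.Agent.H25.LF

/-- the weight of the prime powers `l ^ a` with `l ≤ z` which divide `p ^ 2 - 2` -/
noncomputable def SPz (x : ℕ) (z : ℝ) (p : ℕ) : ℝ :=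
  ∑ l ∈ (PR z).filter (fun l : ℕ => (1 : ℝ) < l),
    ∑ a ∈ Icc 1 x, if Dv (l ^ a) p then Real.log l else 0

theorem SPz_nonneg (x : ℕ) (z : ℝ) (p : ℕ) : 0 ≤ SPz x z p := by
  unfold SPz
  refine sum_nonneg fun l _ => sum_nonneg fun a _ => ?_
  split_ifs
  · exact Real.log_natCast_nonneg l
  · exact le_rfl

/-- the logarithm of a divisor as a sum over prime powers -/
theorem log_le' {x p M : ℕ} {z : ℝ} (hx : 4 ≤ x) (hpp : p.Prime) (hpx : p ≤ x)
    (hM0 : 0 < M) (hM : M ∣ p ^ 2 - 2) (hz : ∀ l : ℕ, l.Prime → l ∣ M → (l : ℝ) ≤ z) :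
    Real.log M ≤ SPz x z p := by
  classical
  have hp1 := hpp.two_le
  set N : ℕ := p ^ 2 - 2 with hN
  have hp4 : 4 ≤ p ^ 2 := by nlinarith
  have hN0 : N ≠ 0 := by omega
  have hNx : N < 2 ^ x := by
    have h1 : p ^ 2 ≤ x ^ 2 := Nat.pow_le_pow_left hpx 2
    have h2 : x ^ 2 ≤ 2 ^ x := by
      clear * - hx
      induction x, hx using Nat.le_induction with
      | base => norm_num
      | succ n hn ih =>
        rw [pow_succ 2 n]
        nlinarith
    omega
  unfold SPz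
  rw [Real.log_nat_eq_sum_factorization, Finsupp.sum]
  have hsupp : M.factorization.support ⊆ (PR z).filter (fun l : ℕ => (1 : ℝ) < l) := by
    intro l hl
    rw [Nat.support_factorization, Nat.mem_primeFactors] at hl
    rw [mem_filter, Pool.Agent.H56.LF.mem_PR]
    exact ⟨⟨hz l hl.1 hl.2.1, hl.1⟩, by exact_mod_cast hl.1.one_lt⟩
  refine (Finset.sum_le_sum (g := fun l => ∑ a ∈ Icc 1 x,
    if Dv (l ^ a) p then Real.log l else 0) fun l hl => ?_).trans
    (Finset.sum_le_sum_of_subset_of_nonneg hsupp fun l _ _ =>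
      Finset.sum_nonneg fun a _ => ?_)
  · rw [Nat.support_factorization, Nat.mem_primeFactors] at hl
    have h0 : M.factorization l ≤ N.factorization l :=
      (Nat.factorization_le_iff_dvd hM0.ne' hN0).2 hM l
    have h1 : N.factorization l ≤ ((Icc 1 x).filter fun a => Dv (l ^ a) p).card := by
      rw [Nat.factorization_eq_card_pow_dvd N hl.1]
      refine Finset.card_le_card fun a ha => ?_
      rw [mem_filter, mem_Ico] at ha
      rw [mem_filter, mem_Icc, Pool.Agent.H18.LF.dv_iff hp1]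
      refine ⟨⟨ha.1.1, ?_⟩, ha.2⟩
      by_contra h
      push Not at h
      have h2 : l ^ a ≤ N := Nat.le_of_dvd (Nat.pos_of_ne_zero hN0) ha.2
      have h3 : 2 ^ x ≤ 2 ^ a := Nat.pow_le_pow_right (by norm_num) h.le
      have h4 : 2 ^ a ≤ l ^ a := Nat.pow_le_pow_left hl.1.two_le a
      omega
    have h2 : (0 : ℝ) ≤ Real.log l := Real.log_nonneg (by exact_mod_cast hl.1.one_le)
    rw [← Finset.sum_filter, Finset.sum_const, nsmul_eq_mul]
    exact mul_le_mul_of_nonneg_right (by exact_mod_cast h0.trans h1) h2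
  · split_ifs
    · exact Real.log_natCast_nonneg l
    · exact le_rfl

/-- the sum over the primes -/
theorem sum_SPz {x : ℕ} {z : ℝ} {B : Finset ℕ} (hB : B ⊆ PR (x : ℝ)) :
    ∑ p ∈ B, SPz x z p ≤ ∑ a ∈ Icc 1 x, SL 1 z (fun l => NN x (l ^ a)) := by
  classical
  unfold SPz
  rw [Finset.sum_comm]
  have h1 : ∀ l ∈ (PR z).filter (fun l : ℕ => (1 : ℝ) < l),
      ∑ p ∈ B, ∑ a ∈ Icc 1 x, (if Dv (l ^ a) p then Real.log l else 0) ≤
        ∑ a ∈ Icc 1 x, Real.log l * NN x (l ^ a) := by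
    intro l _
    rw [Finset.sum_comm]
    refine Finset.sum_le_sum fun a _ => ?_
    rw [← Finset.sum_filter, Finset.sum_const, nsmul_eq_mul, mul_comm]
    refine mul_le_mul_of_nonneg_left ?_ (Real.log_natCast_nonneg l)
    unfold NN
    exact_mod_cast Finset.card_le_card (Finset.filter_subset_filter _ hB)
  refine (Finset.sum_le_sum h1).trans ?_
  rw [Finset.sum_comm]
  exact le_of_eq rfl

theorem tele (w : ℕ → ℝ) {j J : ℕ} (h : j ≤ J) :
    ∑ i ∈ Ico j J, (w i - w (i + 1)) = w j - w J := by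
  induction J, h using Nat.le_induction with
  | base => simp
  | succ n hn ih =>
    rw [Finset.sum_Ico_succ_top hn, ih]
    ring

/-- the weight of a bad prime -/
theorem weight_low {x p r J : ℕ} {t η : ℝ} (hx : 4 ≤ x) (hr : 1 ≤ r) (ht : 0 < t) (ht2 : t < 2)
    (hη : 0 < η) (hJ : 0 < J) (hp : p ∈ BR x t r) (hpη : (x : ℝ) ^ (1 - η) < p)
    (hbig : 1 < (2 - t - 2 * η) * Real.log x) :
    Real.log x - (2 * η * Real.log x + 1) / (2 - t) ≤
      ∑ i ∈ range J, (ww (2 - t) (t / r) J i - ww (2 - t) (t / r) J (i + 1)) *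
        SPz x ((x : ℝ) ^ (t / r * (i + 1 : ℕ) / J)) p := by
  classical
  have hc : 0 < 2 - t := by linarith
  have hr0 : (0 : ℝ) < r := by exact_mod_cast hr
  have hJ0 : (0 : ℝ) < J := by exact_mod_cast hJ
  have hθ : 0 < t / r := by positivity
  set θ : ℝ := t / r with hθd
  unfold BR at hp
  rw [mem_filter, Pool.Agent.H56.LF.mem_PR] at hp
  obtain ⟨⟨hpx, hpp⟩, hpd⟩ := hp
  have hpx' : p ≤ x := by exact_mod_cast hpx
  have hx4 : (4 : ℝ) ≤ x := by exact_mod_cast hx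
  have hx0 : (0 : ℝ) < x := by linarith
  have hlog : 0 < Real.log x := Real.log_pos (by linarith)
  have hp2 : (2 : ℝ) ≤ p := by exact_mod_cast hpp.two_le
  have hp22 : 4 ≤ p ^ 2 := by nlinarith [hpp.two_le]
  set N : ℕ := p ^ 2 - 2 with hN
  have hN0 : 0 < N := by omega
  -- the size of `N`
  have hlogN : 2 * (1 - η) * Real.log x - 1 ≤ Real.log (N : ℝ) := by
    have h3 : (1 - η) * Real.log x ≤ Real.log p := by
      rw [← Real.log_rpow hx0]
      exact Real.log_le_log (by positivity) hpη.le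
    have h4 : (N : ℝ) = (p : ℝ) ^ 2 - 2 := by
      rw [hN]
      push_cast [Nat.cast_sub (by omega : 2 ≤ p ^ 2)]
      ring
    have h5 : Real.log ((p : ℝ) ^ 2 / 2) ≤ Real.log (N : ℝ) := by
      rw [h4]
      refine Real.log_le_log (by positivity) ?_
      nlinarith
    rw [Real.log_div (by positivity) (by norm_num), Real.log_pow] at h5
    have h6 : Real.log 2 ≤ 1 := by
      have := Real.log_two_lt_d9
      linarith
    push_cast at h5
    linarith
  have hΩ : r ≤ cardFactors N := by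
    by_contra hcon
    push Not at hcon
    have h1 := hpd N dvd_rfl hcon.le
    have h2 : Real.log (N : ℝ) ≤ t * Real.log x := by
      rw [← Real.log_rpow hx0]
      exact Real.log_le_log (by exact_mod_cast hN0) h1
    nlinarith
  obtain ⟨q, M, hq, hM0, hMN, hMq, hqr, hNM⟩ := split hN0 hr hΩ hpd
  have hq0 : (0 : ℝ) < q := by exact_mod_cast hq.pos
  have hM0' : (0 : ℝ) < M := by exact_mod_cast hM0
  have hN0' : (0 : ℝ) < N := by exact_mod_cast hN0
  -- logarithms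
  have hl1 : Real.log N + Real.log q ≤ t * Real.log x + Real.log M := by
    rw [← Real.log_mul hN0'.ne' hq0.ne', ← Real.log_rpow hx0,
      ← Real.log_mul (by positivity) hM0'.ne']
    exact Real.log_le_log (by positivity) hNM
  have hl2 : Real.log q ≤ θ * Real.log x := by
    have h1 : Real.log ((q : ℝ) ^ r) ≤ Real.log ((x : ℝ) ^ t) :=
      Real.log_le_log (by positivity) hqr
    rw [Real.log_pow, Real.log_rpow hx0] at h1
    rw [hθd, div_mul_eq_mul_div, le_div_iff₀ hr0]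
    linarith
  have hle_iff : ∀ s : ℝ, (q : ℝ) ≤ (x : ℝ) ^ s ↔ Real.log q ≤ s * Real.log x := by
    intro s
    rw [← Real.log_rpow hx0]
    exact (Real.log_le_log_iff hq0 (by positivity)).symm
  -- the interval of `q`
  have hex : ∃ i, i < J ∧ (q : ℝ) ≤ (x : ℝ) ^ (θ * (i + 1 : ℕ) / J) := by
    refine ⟨J - 1, by omega, ?_⟩
    rw [hle_iff]
    have h1 : J - 1 + 1 = J := by omega
    rw [h1]
    have h2 : θ * (J : ℝ) / J = θ := by field_simp
    rw [h2]
    exact hl2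
  obtain ⟨j, ⟨hjJ, hjq⟩, hjmin⟩ : ∃ j, (j < J ∧ (q : ℝ) ≤ (x : ℝ) ^ (θ * (j + 1 : ℕ) / J)) ∧
      ∀ i < j, ¬ (i < J ∧ (q : ℝ) ≤ (x : ℝ) ^ (θ * (i + 1 : ℕ) / J)) :=
    ⟨Nat.find hex, Nat.find_spec hex, fun i hi => Nat.find_min hex hi⟩
  have hl3 : θ * j / J * Real.log x ≤ Real.log q := by
    rcases Nat.eq_zero_or_pos j with h0 | h0
    · rw [h0]
      simp only [Nat.cast_zero, mul_zero, zero_div, zero_mul]
      exact Real.log_natCast_nonneg q
    · have h1 := hjmin (j - 1) (by omega)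
      have h2 : j - 1 + 1 = j := by omega
      rw [h2] at h1
      have h3 : ¬ (q : ℝ) ≤ (x : ℝ) ^ (θ * (j : ℝ) / J) := fun h => h1 ⟨by omega, h⟩
      rw [hle_iff] at h3
      exact (not_le.1 h3).le
  have hM1 : 0 ≤ Real.log (M : ℝ) := Real.log_natCast_nonneg M
  -- the sum
  have hs1 : ∑ i ∈ Ico j J, (ww (2 - t) θ J i - ww (2 - t) θ J (i + 1)) * Real.log M ≤
      ∑ i ∈ range J, (ww (2 - t) θ J i - ww (2 - t) θ J (i + 1)) *
        SPz x ((x : ℝ) ^ (θ * (i + 1 : ℕ) / J)) p := by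
    refine (Finset.sum_le_sum (g := fun i => (ww (2 - t) θ J i - ww (2 - t) θ J (i + 1)) *
      SPz x ((x : ℝ) ^ (θ * (i + 1 : ℕ) / J)) p) fun i hi => ?_).trans
      (Finset.sum_le_sum_of_subset_of_nonneg (fun i hi => ?_) fun i _ _ => ?_)
    · refine mul_le_mul_of_nonneg_left ?_ (ww_anti hc hθ)
      rw [mem_Ico] at hi
      refine log_le' hx hpp hpx' hM0 hMN fun l hl hlM => ?_
      have h1 : (l : ℝ) ≤ q := by exact_mod_cast hMq l hl hlM
      refine h1.trans (hjq.trans ?_)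
      refine Real.rpow_le_rpow_of_exponent_le (by linarith) ?_
      refine div_le_div_of_nonneg_right ?_ hJ0.le
      refine mul_le_mul_of_nonneg_left ?_ hθ.le
      exact_mod_cast Nat.succ_le_succ hi.1
    · rw [mem_Ico] at hi
      rw [mem_range]
      exact hi.2
    · exact mul_nonneg (ww_anti hc hθ) (SPz_nonneg _ _ _)
  refine le_trans ?_ hs1
  rw [← Finset.sum_mul, tele _ hjJ.le]
  have hwJ : ww (2 - t) θ J J = 0 := by
    unfold ww
    rw [if_neg (lt_irrefl _)]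
  have hwj : ww (2 - t) θ J j = 1 / (2 - t + θ * j / J) := by
    unfold ww
    rw [if_pos hjJ]
  rw [hwJ, hwj, sub_zero]
  have hd : 0 < 2 - t + θ * j / J := by positivity
  have h1 : (2 - t + θ * j / J) * Real.log x - (2 * η * Real.log x + 1) ≤ Real.log M := by
    nlinarith
  have h2 : 1 / (2 - t + θ * j / J) * ((2 - t + θ * j / J) * Real.log x -
      (2 * η * Real.log x + 1)) = Real.log x - (2 * η * Real.log x + 1) / (2 - t + θ * j / J) := by
    field_simp
  have h3 := mul_le_mul_of_nonneg_left h1 (by positivity : 0 ≤ 1 / (2 - t + θ * j / J))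
  rw [h2] at h3
  refine le_trans ?_ h3
  have h4 : (2 * η * Real.log x + 1) / (2 - t + θ * j / J) ≤ (2 * η * Real.log x + 1) / (2 - t) := by
    refine div_le_div_of_nonneg_left (by positivity) hc ?_
    have : 0 ≤ θ * j / J := by positivity
    linarith
  linarith

/-- the mass of the primes up to `x ^ s` -/
theorem mass (hLOW : T_LOW) (hHIG : T_HIG) {s δ : ℝ} (h0 : 0 < s) (h1 : s < 1) (hδ : 0 < δ) :
    ∃ x₀ : ℝ, ∀ x : ℝ, x₀ ≤ x → SL 1 (x ^ s) (NN x) ≤ (Bm s + δ) * x := by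
  by_cases h : s ≤ 1 / 2
  · obtain ⟨x3, hx3⟩ := hLOW s δ h0 h hδ
    refine ⟨x3, fun x hx => ?_⟩
    have h2 := hx3 x hx
    have e : Bm s = s := by
      unfold Bm
      rw [min_eq_left h, max_eq_right h]
      norm_num
    rw [e]
    exact h2
  · push Not at h
    obtain ⟨x3, hx3⟩ := hLOW (1 / 2) (δ / 2) (by norm_num) le_rfl (by positivity)
    obtain ⟨x4, hx4⟩ := hHIG s (δ / 2) h.le h1 (by positivity)
    refine ⟨max (max x3 x4) 1, fun x hx => ?_⟩
    have h2 := hx3 x (((le_max_left _ _).trans (le_max_left _ _)).trans hx)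
    have h3 := hx4 x (((le_max_right _ _).trans (le_max_left _ _)).trans hx)
    have h4 : 1 ≤ x := (le_max_right _ _).trans hx
    have h5 : (1 : ℝ) ≤ x ^ (1 / 2 : ℝ) := Real.one_le_rpow h4 (by norm_num)
    have h6 : x ^ (1 / 2 : ℝ) ≤ x ^ s := Real.rpow_le_rpow_of_exponent_le h4 h.le
    rw [Pool.Agent.H56.LF.SL_split 1 _ _ h5 h6]
    have e : Bm s = 1 / 2 + 2 * Real.log (1 / (2 * (1 - s))) := by
      unfold Bm
      rw [min_eq_right h.le, max_eq_left h.le]
    rw [e]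
    linarith

theorem pf_WM (hLOW : T_LOW) (hHIG : T_HIG) (hPPW : T_PPW) (hPNT : T_PNT) : T_WM := by
  classical
  intro t δ r hr ht ht2 htr hδ
  have hc : 0 < 2 - t := by linarith
  have hr0 : (0 : ℝ) < r := by exact_mod_cast hr
  obtain ⟨θ, hθd⟩ : ∃ θ : ℝ, θ = t / r := ⟨_, rfl⟩
  have hθ : 0 < θ := by rw [hθd]; positivity
  have hθ1 : θ < 1 := by rw [hθd, div_lt_one hr0]; exact htr
  obtain ⟨F, hF⟩ : ∃ F : ℝ, F = Ph (2 - t) θ := ⟨_, rfl⟩
  have hF0 : 0 ≤ F := by rw [hF]; exact Ph_nonneg hc hθ.le hθ1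
  have hB0 : 0 ≤ Bm θ := Bm_nonneg hθ.le hθ1
  rw [FW_eq, ← hθd, ← hF]
  -- the number of the steps
  obtain ⟨J, hJ, hJF⟩ : ∃ J : ℕ, 0 < J ∧ θ / J / (2 - t) ^ 2 * Bm θ ≤ δ / 8 := by
    obtain ⟨n, hn⟩ := exists_nat_gt (θ * Bm θ / (2 - t) ^ 2 / (δ / 8))
    refine ⟨n + 1, Nat.succ_pos n, ?_⟩
    have h1 : θ * Bm θ / (2 - t) ^ 2 ≤ (n + 1 : ℕ) * (δ / 8) := by
      rw [div_lt_iff₀ (by positivity)] at hn
      push_cast
      nlinarith
    have h2 : θ / (n + 1 : ℕ) / (2 - t) ^ 2 * Bm θ = θ * Bm θ / (2 - t) ^ 2 / (n + 1 : ℕ) := by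
      field_simp
    rw [h2, div_le_iff₀ (by positivity)]
    linarith
  have hJ0 : (0 : ℝ) < J := by exact_mod_cast hJ
  -- constants
  obtain ⟨η, hη⟩ : ∃ η : ℝ, η = (2 - t) * δ / (12 * (F + δ + 1)) := ⟨_, rfl⟩
  have hη0 : 0 < η := by rw [hη]; positivity
  obtain ⟨ρ, hρ⟩ : ∃ ρ : ℝ, ρ = 3 * η / (2 - t) := ⟨_, rfl⟩
  have hρe : ρ * (4 * (F + δ + 1)) = δ := by
    rw [hρ, hη]
    field_simp
    norm_num
  have hρ0 : 0 < ρ := by rw [hρ]; positivity
  have hρ1 : ρ < 1 / 4 := by nlinarith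
  have hη2 : 0 < 2 - t - 2 * η := by
    have h1 : 3 * η = ρ * (2 - t) := by
      rw [hρ]
      field_simp
    nlinarith
  obtain ⟨δ1, hδ1⟩ : ∃ δ1 : ℝ, δ1 = (2 - t) * δ / 16 := ⟨_, rfl⟩
  have hδ10 : 0 < δ1 := by rw [hδ1]; positivity
  obtain ⟨η', hη'⟩ : ∃ η' : ℝ, η' = δ / (4 * (F + δ)) := ⟨_, rfl⟩
  have hη'0 : 0 < η' := by rw [hη']; positivity
  have hη'e : η' * (4 * (F + δ)) = δ := by rw [hη']; field_simp
  have hσ : ∀ i : ℕ, i < J → 0 < θ * (i + 1 : ℕ) / J ∧ θ * (i + 1 : ℕ) / J < 1 := by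
    intro i hi
    refine ⟨by positivity, lt_of_le_of_lt ?_ hθ1⟩
    rw [div_le_iff₀ hJ0]
    refine mul_le_mul_of_nonneg_left ?_ hθ.le
    exact_mod_cast hi
  -- eventual inequalities
  have ev1 : ∀ᶠ x : ℝ in Filter.atTop, ∀ i ∈ range J,
      SL 1 (x ^ (θ * (i + 1 : ℕ) / J)) (NN x) ≤ (Bm (θ * (i + 1 : ℕ) / J) + δ1) * x := by
    rw [Filter.eventually_all_finset]
    intro i hi
    obtain ⟨h1, h2⟩ := hσ i (mem_range.1 hi)
    obtain ⟨x0, hx0⟩ := mass hLOW hHIG h1 h2 hδ10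
    exact Filter.eventually_atTop.2 ⟨x0, hx0⟩
  have ev2 : ∀ᶠ x : ℝ in Filter.atTop, ∀ i ∈ range J,
      ∑ a ∈ Icc 2 ⌊x⌋₊, SL 1 (x ^ (θ * (i + 1 : ℕ) / J)) (fun l => NN x (l ^ a)) ≤ δ1 * x := by
    rw [Filter.eventually_all_finset]
    intro i hi
    obtain ⟨h1, h2⟩ := hσ i (mem_range.1 hi)
    obtain ⟨x0, hx0⟩ := hPPW _ δ1 h1 h2 hδ10
    exact Filter.eventually_atTop.2 ⟨x0, hx0⟩
  have ev3 : ∀ᶠ x : ℝ in Filter.atTop, Real.log x ≤ δ / 8 * x ^ η := by
    have h1 := (isLittleO_log_rpow_atTop hη0).bound (show (0 : ℝ) < δ / 8 by positivity)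
    filter_upwards [h1, Filter.eventually_ge_atTop 1] with x hx hx1
    rw [Real.norm_of_nonneg (Real.log_nonneg hx1), Real.norm_of_nonneg (by positivity)] at hx
    exact hx
  have ev4 : ∀ᶠ x : ℝ in Filter.atTop, max (1 / η) (2 / (2 - t - 2 * η)) ≤ Real.log x :=
    Real.tendsto_log_atTop.eventually_ge_atTop _
  have ev5 : ∀ᶠ x : ℝ in Filter.atTop, |Chebyshev.psi x - x| ≤ η' * x := by
    obtain ⟨x0, hx0⟩ := hPNT η' hη'0
    exact Filter.eventually_atTop.2 ⟨x0, hx0⟩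
  obtain ⟨X, hX⟩ := Filter.eventually_atTop.1 (((ev1.and ev2).and (ev3.and ev4)).and ev5)
  refine ⟨max 4 ⌈X⌉₊, fun x hx => ?_⟩
  have hx4 : 4 ≤ x := (le_max_left _ _).trans hx
  have hxX : X ≤ (x : ℝ) := (Nat.le_ceil X).trans (by exact_mod_cast (le_max_right _ _).trans hx)
  obtain ⟨⟨⟨e1, e2⟩, e3, e4⟩, e5⟩ := hX x hxX
  have hx4' : (4 : ℝ) ≤ x := by exact_mod_cast hx4
  have hx0 : (0 : ℝ) < x := by linarith
  have hlog : 0 < Real.log x := Real.log_pos (by linarith)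
  have e41 : 1 ≤ η * Real.log x := by
    have h1 := (le_max_left _ _).trans e4
    rw [div_le_iff₀ hη0] at h1
    linarith
  have e42 : 1 < (2 - t - 2 * η) * Real.log x := by
    have h1 := (le_max_right _ _).trans e4
    rw [div_le_iff₀ hη2] at h1
    linarith
  -- the two parts of the bad set
  set B := BR x t r with hB
  have hBsub : B ⊆ PR (x : ℝ) := by
    rw [hB]
    unfold BR
    exact Finset.filter_subset _ _
  set B1 := B.filter (fun p : ℕ => (x : ℝ) ^ (1 - η) < p) with hB1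
  set B2 := B.filter (fun p : ℕ => ¬ (x : ℝ) ^ (1 - η) < p) with hB2
  have hcard : (B.card : ℝ) = B1.card + B2.card := by
    exact_mod_cast (Finset.card_filter_add_card_filter_not (s := B)
      (fun p : ℕ => (x : ℝ) ^ (1 - η) < p)).symm
  have hxη : 0 ≤ (x : ℝ) ^ (1 - η) := by positivity
  have hB2c : (B2.card : ℝ) ≤ (x : ℝ) ^ (1 - η) := by
    have h1 : B2 ⊆ Icc 1 ⌊(x : ℝ) ^ (1 - η)⌋₊ := by
      intro p hp
      rw [hB2, mem_filter] at hp
      have h2 := Pool.Agent.H56.LF.mem_PR.1 (hBsub hp.1)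
      rw [mem_Icc]
      exact ⟨h2.2.one_le, Nat.le_floor (not_lt.1 hp.2)⟩
    have h2 := Finset.card_le_card h1
    rw [Nat.card_Icc, Nat.add_sub_cancel] at h2
    exact le_trans (by exact_mod_cast h2) (Nat.floor_le hxη)
  -- lower bound for the weight
  have hlow : (B1.card : ℝ) * ((1 - ρ) * Real.log x) ≤
      ∑ p ∈ B1, ∑ i ∈ range J, (ww (2 - t) θ J i - ww (2 - t) θ J (i + 1)) *
        SPz x ((x : ℝ) ^ (θ * (i + 1 : ℕ) / J)) p := by
    rw [← nsmul_eq_mul, ← Finset.sum_const]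
    refine Finset.sum_le_sum fun p hp => ?_
    rw [hB1, mem_filter] at hp
    have h1 := weight_low (J := J) hx4 hr ht ht2 hη0 hJ hp.1 hp.2 e42
    rw [← hθd] at h1
    refine le_trans ?_ h1
    have h2 : (2 * η * Real.log x + 1) / (2 - t) ≤ ρ * Real.log x := by
      rw [hρ, div_mul_eq_mul_div]
      exact div_le_div_of_nonneg_right (by linarith) hc.le
    linarith
  -- upper bound
  have hupp : ∑ p ∈ B1, ∑ i ∈ range J, (ww (2 - t) θ J i - ww (2 - t) θ J (i + 1)) *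
      SPz x ((x : ℝ) ^ (θ * (i + 1 : ℕ) / J)) p ≤ (F + δ / 4) * x := by
    rw [Finset.sum_comm]
    have h1 : ∀ i ∈ range J, ∑ p ∈ B1, (ww (2 - t) θ J i - ww (2 - t) θ J (i + 1)) *
        SPz x ((x : ℝ) ^ (θ * (i + 1 : ℕ) / J)) p ≤
        (ww (2 - t) θ J i - ww (2 - t) θ J (i + 1)) * Bm (θ * (i + 1 : ℕ) / J) * x +
          (ww (2 - t) θ J i - ww (2 - t) θ J (i + 1)) * (2 * δ1 * x) := by
      intro i hi
      rw [← Finset.mul_sum]
      have h2 := sum_SPz (x := x) (z := (x : ℝ) ^ (θ * (i + 1 : ℕ) / J))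
        ((Finset.filter_subset _ _).trans hBsub : B1 ⊆ PR (x : ℝ))
      have h3 := e1 i hi
      have h4 := e2 i hi
      rw [Nat.floor_natCast] at h4
      have h5 : Icc 1 x = insert 1 (Icc 2 x) := by
        ext a
        rw [mem_insert, mem_Icc, mem_Icc]
        omega
      rw [h5, Finset.sum_insert (by rw [mem_Icc]; omega)] at h2
      have h6 : (fun l => NN (x : ℝ) (l ^ 1)) = NN (x : ℝ) := by
        funext l
        rw [pow_one]
      rw [h6] at h2
      have h7 : ∑ p ∈ B1, SPz x ((x : ℝ) ^ (θ * (i + 1 : ℕ) / J)) p ≤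
          (Bm (θ * (i + 1 : ℕ) / J) + 2 * δ1) * x := by linarith
      have h8 := mul_le_mul_of_nonneg_left h7
        (ww_anti (J := J) (j := i) hc hθ)
      refine h8.trans (le_of_eq ?_)
      ring
    refine (Finset.sum_le_sum h1).trans ?_
    rw [Finset.sum_add_distrib, ← Finset.sum_mul, ← Finset.sum_mul]
    have h2 := riemann hc hθ hθ1 hJ
    have h3 : ∑ i ∈ range J, (ww (2 - t) θ J i - ww (2 - t) θ J (i + 1)) = 1 / (2 - t) := by
      rw [Finset.sum_range_sub' (fun i => ww (2 - t) θ J i)]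
      unfold ww
      rw [if_pos hJ, if_neg (lt_irrefl _)]
      simp
    rw [h3]
    have h4 : 1 / (2 - t) * (2 * δ1 * x) = δ / 8 * x := by
      rw [hδ1]
      field_simp
      norm_num
    rw [h4]
    rw [← hF] at h2
    have h5 : ∑ j ∈ range J, (ww (2 - t) θ J j - ww (2 - t) θ J (j + 1)) *
        Bm (θ * (j + 1 : ℕ) / J) ≤ F + δ / 8 := by linarith
    have h6 := mul_le_mul_of_nonneg_right h5 hx0.le
    linarith
  have hA : (B1.card : ℝ) * Real.log x ≤ (F + δ / 2) * x := by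
    have h1 := hlow.trans hupp
    have h2 : (F + δ / 4) * x ≤ (F + δ / 2) * (1 - ρ) * x := by
      refine mul_le_mul_of_nonneg_right ?_ hx0.le
      nlinarith
    have h3 : (1 - ρ) * ((B1.card : ℝ) * Real.log x) ≤ (1 - ρ) * ((F + δ / 2) * x) := by
      calc (1 - ρ) * ((B1.card : ℝ) * Real.log x) =
            (B1.card : ℝ) * ((1 - ρ) * Real.log x) := by ring
        _ ≤ (F + δ / 2) * (1 - ρ) * x := h1.trans h2
        _ = _ := by ring
    exact le_of_mul_le_mul_left h3 (by linarith)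
  have hA2 : (B2.card : ℝ) * Real.log x ≤ δ / 8 * x := by
    calc (B2.card : ℝ) * Real.log x ≤ (x : ℝ) ^ (1 - η) * Real.log x :=
          mul_le_mul_of_nonneg_right hB2c hlog.le
      _ ≤ (x : ℝ) ^ (1 - η) * (δ / 8 * (x : ℝ) ^ η) := mul_le_mul_of_nonneg_left e3 hxη
      _ = δ / 8 * ((x : ℝ) ^ (1 - η) * (x : ℝ) ^ η) := by ring
      _ = δ / 8 * x := by
          rw [← Real.rpow_add hx0]
          have : 1 - η + η = 1 := by ring
          rw [this, Real.rpow_one]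
  have hpi : (1 - η') * x ≤ (Nat.primeCounting x : ℝ) * Real.log x := by
    have h2 := Chebyshev.psi_le_primeCounting_mul_log x
    have h3 := (abs_le.1 e5).1
    linarith
  have hend : Real.log x * (B.card : ℝ) ≤ Real.log x * ((F + δ) * (Nat.primeCounting x : ℝ)) := by
    have h1 : (F + 5 / 8 * δ) * x ≤ (F + δ) * ((1 - η') * x) := by
      have h3 : F + 5 / 8 * δ ≤ (F + δ) * (1 - η') := by nlinarith
      have h4 := mul_le_mul_of_nonneg_right h3 hx0.le
      linarith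
    calc Real.log x * (B.card : ℝ) = (B1.card : ℝ) * Real.log x + (B2.card : ℝ) * Real.log x := by
          rw [hcard]
          ring
      _ ≤ (F + 5 / 8 * δ) * x := by linarith
      _ ≤ (F + δ) * ((1 - η') * x) := h1
      _ ≤ (F + δ) * ((Nat.primeCounting x : ℝ) * Real.log x) :=
          mul_le_mul_of_nonneg_left hpi (by linarith)
      _ = _ := by ring
  exact le_of_mul_le_mul_left hend hlog

end Pool.Agent.H2.SC
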